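import Pool.Agent.LibFed070.Comput

set_option autoImplicit false
set_option linter.unusedSectionVars false
set_option linter.constructorNameAsVariable false

/-! From a coded ring with decidable equality to a computable ring on a computable subset of `ℕ`,
with its prime ideals as characteristic functions. -/

namespace Pool.Agent.LibFed070

section

variable {R : Type*} [CommRing R] (ν : ℕ → R) (hν : Function.Surjective ν)

/-- least code -/
noncomputable def rep (x : R) : ℕ := by
  classical exact Nat.find (hν x)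

theorem ν_rep (x : R) : ν (rep ν hν x) = x := by
  classical
  unfold rep
  exact Nat.find_spec (hν x)

theorem rep_inj {x y : R} (h : rep ν hν x = rep ν hν y) : x = y := by
  rw [← ν_rep ν hν x, h, ν_rep ν hν]

/-- The universe: least codes. -/
noncomputable def univ (n : ℕ) : Bool := by
  classical exact decide (rep ν hν (ν n) = n)

theorem univ_iff (n : ℕ) : univ ν hν n = true ↔ rep ν hν (ν n) = n := by
  classical
  unfold univ
  simp

theorem univ_rep (x : R) : univ ν hν (rep ν hν x) = true := by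
  rw [univ_iff, ν_rep ν hν]

/-- The characteristic function of an ideal. -/
noncomputable def chi (𝔭 : Ideal R) (n : ℕ) : ℕ := by
  classical exact if univ ν hν n = true ∧ ν n ∈ 𝔭 then 1 else 0

theorem chi_eq_one (𝔭 : Ideal R) (n : ℕ) :
    chi ν hν 𝔭 n = 1 ↔ (univ ν hν n = true ∧ ν n ∈ 𝔭) := by
  classical
  unfold chi
  split_ifs with h <;> simp [h]

theorem chi_zero_or_one (𝔭 : Ideal R) (n : ℕ) : chi ν hν 𝔭 n = 0 ∨ chi ν hν 𝔭 n = 1 := by
  classical
  unfold chi
  split_ifs <;> simp

/-- The set of characteristic functions of prime ideals, in the format of the problem. -/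
def primeSet (U : ℕ → Bool) (add mul : ℕ → ℕ → ℕ) (zero one : ℕ) : Set (ℕ → ℕ) :=
  {χ : ℕ → ℕ | (∀ n, χ n = 0 ∨ χ n = 1) ∧
            (∀ n, χ n = 1 → U n = true) ∧
            χ zero = 1 ∧ χ one = 0 ∧
            (∀ a b, χ a = 1 → χ b = 1 → χ (add a b) = 1) ∧
            (∀ a b, U a = true → χ b = 1 → χ (mul a b) = 1) ∧
            (∀ a b, U a = true → U b = true → χ (mul a b) = 1 → χ a = 1 ∨ χ b = 1)}

theorem chi_mem (𝔭 : Ideal R) (h𝔭 : 𝔭.IsPrime) :
    chi ν hν 𝔭 ∈ primeSet (univ ν hν) (fun a b => rep ν hν (ν a + ν b))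
      (fun a b => rep ν hν (ν a * ν b)) (rep ν hν 0) (rep ν hν 1) := by
  refine ⟨chi_zero_or_one ν hν 𝔭, fun n hn => ((chi_eq_one ν hν 𝔭 n).1 hn).1, ?_, ?_, ?_, ?_, ?_⟩
  · rw [chi_eq_one]
    exact ⟨univ_rep ν hν 0, by rw [ν_rep ν hν]; exact 𝔭.zero_mem⟩
  · rcases chi_zero_or_one ν hν 𝔭 (rep ν hν 1) with h | h
    · exact h
    · exfalso
      rw [chi_eq_one, ν_rep ν hν] at h
      exact h𝔭.ne_top ((Ideal.eq_top_iff_one _).2 h.2)
  · intro a b ha hb
    rw [chi_eq_one] at ha hb ⊢
    exact ⟨univ_rep ν hν _, by rw [ν_rep ν hν]; exact 𝔭.add_mem ha.2 hb.2⟩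
  · intro a b _ hb
    rw [chi_eq_one] at hb ⊢
    exact ⟨univ_rep ν hν _, by rw [ν_rep ν hν]; exact 𝔭.mul_mem_left _ hb.2⟩
  · intro a b ha hb hab
    rw [chi_eq_one, ν_rep ν hν] at hab
    rw [chi_eq_one, chi_eq_one]
    rcases h𝔭.mem_or_mem hab.2 with h | h
    · exact Or.inl ⟨ha, h⟩
    · exact Or.inr ⟨hb, h⟩

theorem exists_prime_of_mem (χ : ℕ → ℕ)
    (hχ : χ ∈ primeSet (univ ν hν) (fun a b => rep ν hν (ν a + ν b))
      (fun a b => rep ν hν (ν a * ν b)) (rep ν hν 0) (rep ν hν 1)) :
    ∃ 𝔭 : Ideal R, 𝔭.IsPrime ∧ χ = chi ν hν 𝔭 := by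
  obtain ⟨h01, hU, h0, h1, hadd, hmul, hprime⟩ := hχ
  let 𝔭 : Ideal R :=
    { carrier := {x | χ (rep ν hν x) = 1}
      add_mem' := by
        intro a b ha hb
        have := hadd _ _ ha hb
        simpa [ν_rep ν hν] using this
      zero_mem' := h0
      smul_mem' := by
        intro c x hx
        have := hmul (rep ν hν c) (rep ν hν x) (univ_rep ν hν c) hx
        simpa [ν_rep ν hν] using this }
  have hmem : ∀ x, x ∈ 𝔭 ↔ χ (rep ν hν x) = 1 := fun x => Iff.rfl
  refine ⟨𝔭, ?_, ?_⟩
  · constructor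
    · intro htop
      have : (1 : R) ∈ 𝔭 := by rw [htop]; trivial
      rw [hmem] at this
      omega
    · intro x y hxy
      rw [hmem] at hxy
      rw [hmem, hmem]
      apply hprime _ _ (univ_rep ν hν x) (univ_rep ν hν y)
      simpa [ν_rep ν hν] using hxy
  · funext n
    by_cases hn : χ n = 1
    · have hUn := hU n hn
      rw [hn, eq_comm, chi_eq_one, hmem, (univ_iff ν hν n).1 hUn]
      exact ⟨hUn, hn⟩
    · have h0n : χ n = 0 := by
        rcases h01 n with h | h
        · exact h
        · exact absurd h hn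
      have : chi ν hν 𝔭 n ≠ 1 := by
        intro h
        rw [chi_eq_one, hmem] at h
        rw [(univ_iff ν hν n).1 h.1] at h
        exact hn h.2
      rcases chi_zero_or_one ν hν 𝔭 n with h | h
      · rw [h0n, h]
      · exact absurd h this

/-! Computability -/

variable {addC mulC : ℕ → ℕ → ℕ} {negC : ℕ → ℕ} {eqC : ℕ → ℕ → Bool}

theorem computable_canon (h4 : Computable₂ eqC) (heq : ∀ a b, eqC a b = true ↔ ν a = ν b) :
    Computable (fun a => rep ν hν (ν a)) := by
  have hex : ∀ a, ∃ b, eqC a b = true := fun a => ⟨a, (heq a a).2 rfl⟩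
  refine (computable_find h4 hex).of_eq (fun a => ?_)
  classical
  unfold rep
  apply le_antisymm
  · apply Nat.find_min'
    rw [heq]
    exact (Nat.find_spec (hν (ν a))).symm
  · apply Nat.find_min'
    exact ((heq _ _).1 (Nat.find_spec (hex a))).symm

theorem computable_univ (h4 : Computable₂ eqC) (heq : ∀ a b, eqC a b = true ↔ ν a = ν b) :
    Computable (univ ν hν) := by
  have h1 := computable_canon ν hν h4 heq
  have h2 : Computable fun p : ℕ × ℕ => decide (p.1 = p.2) :=
    (Primrec.eq (α := ℕ)).decide.to_comp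
  have h3 : Computable fun n => decide (rep ν hν (ν n) = n) :=
    h2.comp (h1.pair Computable.id)
  refine h3.of_eq (fun n => ?_)
  rw [Bool.eq_iff_iff, univ_iff]
  simp

theorem computable_add (h1 : Computable₂ addC) (hadd : ∀ a b, ν (addC a b) = ν a + ν b)
    (h4 : Computable₂ eqC) (heq : ∀ a b, eqC a b = true ↔ ν a = ν b) :
    Computable₂ (fun a b => rep ν hν (ν a + ν b)) := by
  have h := (computable_canon ν hν h4 heq).comp h1
  refine Computable.of_eq h (fun p => ?_)
  rw [hadd]

theorem computable_mul (h1 : Computable₂ mulC) (hmul : ∀ a b, ν (mulC a b) = ν a * ν b)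
    (h4 : Computable₂ eqC) (heq : ∀ a b, eqC a b = true ↔ ν a = ν b) :
    Computable₂ (fun a b => rep ν hν (ν a * ν b)) := by
  have h := (computable_canon ν hν h4 heq).comp h1
  refine Computable.of_eq h (fun p => ?_)
  rw [hmul]

theorem computable_neg (h1 : Computable negC) (hneg : ∀ a, ν (negC a) = - ν a)
    (h4 : Computable₂ eqC) (heq : ∀ a b, eqC a b = true ↔ ν a = ν b) :
    Computable (fun a => rep ν hν (- ν a)) := by
  have h := (computable_canon ν hν h4 heq).comp h1
  refine Computable.of_eq h (fun p => ?_)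
  rw [hneg]

end

end Pool.Agent.LibFed070
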