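import Pool.Agent.LibFed070.Primes
import Pool.Agent.LibFed070.Presentation

set_option autoImplicit false

/-! Codes for elements and computability. -/

namespace Pool.Agent.LibFed070

section

variable {α β σ : Type*} [Primcodable α] [Primcodable β] [Primcodable σ]

theorem computable_any {f : α → List β} {p : α → β → Bool}
    (hf : Computable f) (hp : Computable₂ p) : Computable fun a => (f a).any (p a) := by
  have hstep : Computable₂ fun (a : α) (q : Bool × β) => q.1 || p a q.2 := by
    have : Computable fun q : α × (Bool × β) => (q.2.1 || p q.1 q.2.2) :=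
      (Primrec.or.to_comp).comp (Computable.fst.comp Computable.snd)
        (hp.comp Computable.fst (Computable.snd.comp Computable.snd))
    exact this
  have h1 := computable_foldl hf (Computable.const false) hstep
  refine h1.of_eq (fun a => ?_)
  have key : ∀ (l : List β) (s : Bool), l.foldl (fun s b => s || p a b) s = (s || l.any (p a)) := by
    intro l
    induction l with
    | nil => intro s; simp
    | cons b l ih => intro s; simp [ih, Bool.or_assoc]
  simpa using key (f a) false

theorem primrec_pow3 : Primrec (fun n : ℕ => 3 ^ n) := by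
  have h : Primrec (fun n : ℕ => Nat.rec (motive := fun _ => ℕ) 1 (fun _ y => y * 3) n) :=
    Primrec.nat_rec' (f := fun n => n) (g := fun _ => 1) (h := fun _ (p : ℕ × ℕ) => p.2 * 3)
      Primrec.id (Primrec.const 1)
      (Primrec.nat_mul.comp (Primrec.snd.comp Primrec.snd) (Primrec.const 3))
  refine h.of_eq (fun n => ?_)
  induction n with
  | zero => rfl
  | succ n ih => rw [pow_succ, ← ih]

end

section

variable {T : List ℕ → Bool} {g : List ℕ → ℕ} (hTc : Computable T) (hgc : Computable g)

include hTc hgc in
theorem computable_ch : Computable (ch T g) := by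
  unfold ch
  refine computable_flatMap (f := fun σ => (List.range (g σ)).map (fun i => σ ++ [i]))
    (g := fun _ τ => if T τ = true then [τ] else []) ?_ ?_
  · refine computable_map (f := fun σ => List.range (g σ)) (g := fun σ i => σ ++ [i]) ?_ ?_
    · exact computable_list_range.comp hgc
    · exact Computable.list_append.comp Computable.fst
        (Computable.list_cons.comp Computable.snd (Computable.const []))
  · have h1 : Computable fun p : List ℕ × List ℕ => (bif T p.2 then [p.2] else []) :=
      Computable.cond (hTc.comp Computable.snd)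
        (Computable.list_cons.comp Computable.snd (Computable.const [])) (Computable.const [])
    refine Computable.of_eq h1 (fun p => ?_)
    cases h : T p.2 <;> simp [h]

include hTc hgc in
theorem computable_desc : Computable₂ (desc T g) := by
  have h : Computable (fun p : List (List ℕ) × ℕ =>
      (Nat.rec (motive := fun _ => List (List ℕ)) p.1
        (fun _ L => L.flatMap (ch T g)) p.2 : List (List ℕ))) := by
    refine Computable.nat_rec (f := fun p : List (List ℕ) × ℕ => p.2) (g := fun p => p.1)
      (h := fun _ (q : ℕ × List (List ℕ)) => q.2.flatMap (ch T g))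
      Computable.snd Computable.fst ?_
    exact computable_flatMap (f := fun p : (List (List ℕ) × ℕ) × (ℕ × List (List ℕ)) => p.2.2)
      (g := fun _ τ => ch T g τ) (Computable.snd.comp Computable.snd)
      ((computable_ch hTc hgc).comp Computable.snd)
  exact h

include hTc hgc in
theorem computable_lv : Computable (lv T g) :=
  (computable_desc hTc hgc).comp (Computable.const [[]]) Computable.id

include hTc hgc in
theorem computable_bas : Computable (bas T g) := by
  have h : Computable₂ (fun (l : List (List ℕ)) (n : ℕ) => l.take n) :=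
    (Primrec.list_take.comp Primrec.snd Primrec.fst).to_comp
  exact h.comp ((computable_lv hTc hgc).comp (Computable.fst.comp Computable.unpair))
    (Computable.snd.comp Computable.unpair)

include hTc hgc in
theorem computable_E : Computable₂ (E T g) := by
  have h : Computable (fun p : ℕ × ℕ => ((List.range (p.2 - p.1.unpair.1)).map
      (fun k => (desc T g (bas T g p.1) k).length))) := by
    refine computable_map (f := fun p : ℕ × ℕ => List.range (p.2 - p.1.unpair.1))
      (g := fun p k => (desc T g (bas T g p.1) k).length) ?_ ?_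
    · exact computable_list_range.comp ((Primrec.nat_sub.comp Primrec.snd
        (Primrec.fst.comp (Primrec.unpair.comp Primrec.fst))).to_comp)
    · exact Computable.list_length.comp ((computable_desc hTc hgc).comp
        ((computable_bas hTc hgc).comp (Computable.fst.comp Computable.fst)) Computable.snd)
  exact primrec_list_sum.to_comp.comp h

include hTc hgc in
theorem computable_Er : Computable (Er T g) := by
  have h : Computable (fun s : ℕ => ((List.range s).map (fun k => (lv T g k).length))) :=
    computable_map (f := fun s : ℕ => List.range s) (g := fun _ k => (lv T g k).length)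
      computable_list_range
      (Computable.list_length.comp ((computable_lv hTc hgc).comp Computable.snd))
  exact primrec_list_sum.to_comp.comp h

include hTc hgc in
theorem computable_stg : Computable (stg T g) := by
  have h1 : Computable (fun N : ℕ => N + Er T g N) :=
    (Primrec.nat_add.to_comp).comp Computable.id (computable_Er hTc hgc)
  exact (Primrec.nat_add.to_comp).comp h1 Computable.succ

include hTc hgc in
theorem computable_val : Computable₂ (fun (m : List ℕ) (s : ℕ) => val (E T g) m s) := by
  have h : Computable (fun p : List ℕ × ℕ => (p.1.map (fun n => 3 ^ (E T g n p.2)))) := by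
    refine computable_map (f := fun p : List ℕ × ℕ => p.1)
      (g := fun p n => 3 ^ (E T g n p.2)) Computable.fst ?_
    exact primrec_pow3.to_comp.comp ((computable_E hTc hgc).comp Computable.snd
      (Computable.snd.comp Computable.fst))
  exact primrec_list_sum.to_comp.comp h

theorem primrec_leVals : PrimrecRel leVals := by
  -- parity of the number of occurrences
  have hcount : Primrec₂ (fun (G : List ℕ) (b : ℕ) => (G.filter (fun x => x = b)).length) :=
    Primrec.list_length.comp (PrimrecRel.listFilter (R := fun (x b : ℕ) => x = b) Primrec.eq)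
  have hodd : PrimrecRel (fun (G : List ℕ) (b : ℕ) => (G.filter (fun x => x = b)).length % 2 = 1) :=
    Primrec.eq.comp (Primrec.nat_mod.comp hcount (Primrec.const 2)) (Primrec.const 1)
  -- inner relation
  have hin : PrimrecRel (fun (a : ℕ) (q : List ℕ × ℕ) =>
      (q.1.filter (fun x => x = a)).length % 2 = 1 ∧ a ≤ q.2) := by
    refine PrimrecPred.and ?_ ?_
    · exact hodd.comp (Primrec.fst.comp Primrec.snd) Primrec.fst
    · exact Primrec.nat_le.comp Primrec.fst (Primrec.snd.comp Primrec.snd)
  have hex := hin.exists_mem_list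
  have hbody : PrimrecRel (fun (b : ℕ) (q : List ℕ × List ℕ) =>
      ((q.2.filter (fun x => x = b)).length % 2 = 1 →
        ∃ a ∈ q.1, (q.1.filter (fun x => x = a)).length % 2 = 1 ∧ a ≤ b)) := by
    have h1 : PrimrecPred (fun p : ℕ × (List ℕ × List ℕ) =>
        ¬ ((p.2.2.filter (fun x => x = p.1)).length % 2 = 1)) :=
      (hodd.comp (Primrec.snd.comp Primrec.snd) Primrec.fst).not
    have h2 : PrimrecPred (fun p : ℕ × (List ℕ × List ℕ) =>
        ∃ a ∈ p.2.1, (p.2.1.filter (fun x => x = a)).length % 2 = 1 ∧ a ≤ p.1) :=
      hex.comp (Primrec.fst.comp Primrec.snd)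
        ((Primrec.fst.comp Primrec.snd).pair Primrec.fst)
    exact (h1.or h2).of_eq (fun p => by simp only [imp_iff_not_or])
  have hall := hbody.forall_mem_list
  have hfin : PrimrecPred (fun p : List ℕ × List ℕ =>
      ∀ b ∈ p.2, ((p.2.filter (fun x => x = b)).length % 2 = 1 →
        ∃ a ∈ p.1, (p.1.filter (fun x => x = a)).length % 2 = 1 ∧ a ≤ b)) :=
    hall.comp Primrec.snd Primrec.id
  exact hfin

/-- decision procedure for comparing orders -/
def leDec (T : List ℕ → Bool) (g : List ℕ → ℕ) (f h : List (List ℕ)) : Bool :=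
  decide (leVals (f.map (fun m => val (E T g) m (stg T g (Encodable.encode f + Encodable.encode h))))
    (h.map (fun m => val (E T g) m (stg T g (Encodable.encode f + Encodable.encode h)))))

include hTc hgc in
theorem computable_leDec : Computable₂ (leDec T g) := by
  have hN : Computable (fun p : List (List ℕ) × List (List ℕ) =>
      stg T g (Encodable.encode p.1 + Encodable.encode p.2)) :=
    (computable_stg hTc hgc).comp ((Primrec.nat_add.comp (Primrec.encode.comp Primrec.fst)
      (Primrec.encode.comp Primrec.snd)).to_comp)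
  have h1 : Computable (fun p : List (List ℕ) × List (List ℕ) =>
      p.1.map (fun m => val (E T g) m (stg T g (Encodable.encode p.1 + Encodable.encode p.2)))) :=
    computable_map (f := fun p : List (List ℕ) × List (List ℕ) => p.1)
      (g := fun p m => val (E T g) m (stg T g (Encodable.encode p.1 + Encodable.encode p.2)))
      Computable.fst
      ((computable_val hTc hgc).comp Computable.snd (hN.comp Computable.fst))
  have h2 : Computable (fun p : List (List ℕ) × List (List ℕ) =>
      p.2.map (fun m => val (E T g) m (stg T g (Encodable.encode p.1 + Encodable.encode p.2)))) :=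
    computable_map (f := fun p : List (List ℕ) × List (List ℕ) => p.2)
      (g := fun p m => val (E T g) m (stg T g (Encodable.encode p.1 + Encodable.encode p.2)))
      Computable.snd
      ((computable_val hTc hgc).comp Computable.snd (hN.comp Computable.fst))
  have h3 : Computable (fun p : List ℕ × List ℕ => decide (leVals p.1 p.2)) := by
    have := primrec_leVals.decide
    exact this.to_comp
  exact h3.comp (h1.pair h2)

theorem mem_le_encode {α : Type*} [Encodable α] (l : List α) (a : α) (h : a ∈ l) :
    Encodable.encode a ≤ Encodable.encode l := by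
  induction l with
  | nil => simp at h
  | cons b l ih =>
    rw [Encodable.encode_list_cons]
    rcases List.mem_cons.1 h with rfl | h
    · exact (Nat.left_le_pair _ _).trans (Nat.le_succ _)
    · exact ((ih h).trans (Nat.right_le_pair _ _)).trans (Nat.le_succ _)

theorem length_le_encode' {α : Type*} [Encodable α] (l : List α) :
    l.length ≤ Encodable.encode l := Encodable.length_le_encode l

theorem bdd_of_encode (f : List (List ℕ)) (N : ℕ) (hN : Encodable.encode f ≤ N) :
    ∀ m ∈ f, Bdd m N := by
  intro m hm
  have h1 := mem_le_encode f m hm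
  refine ⟨(length_le_encode' m).trans (h1.trans hN), fun n hn => ?_⟩
  have h2 := mem_le_encode m n hn
  exact (Nat.unpair_left_le n).trans (h2.trans (h1.trans hN))

theorem leDec_iff (f h : List (List ℕ)) :
    leDec T g f h = true ↔ (xf T g f).orderTop ≤ (xf T g h).orderTop := by
  unfold leDec
  rw [decide_eq_true_iff, orderTop_le_iff_leVals T g f h _
    (bdd_of_encode f _ (Nat.le_add_right _ _)) (bdd_of_encode h _ (Nat.le_add_left _ _))]

/-! ### Codes -/

/-- codes for elements: numerator, denominator, bound -/
abbrev Code : Type := List (List ℕ) × List (List ℕ) × ℕ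

/-- multiply all monomials by `m` -/
def shift (m : List ℕ) (f : List (List ℕ)) : List (List ℕ) := f.map (fun m' => m ++ m')

/-- the code of zero -/
def zc : Code := ([], [[]], 0)

/-- the code of one -/
def oc : Code := ([[]], [[]], 0)

/-- validity decision -/
def validDec (T : List ℕ → Bool) (g : List ℕ → ℕ) (c : Code) : Bool :=
  (!leDec T g [] (dbl c.2.1)) && leDec T g (dbl c.2.1) (shift (List.replicate c.2.2 ut) (dbl c.1))

/-- normalisation -/
def nrm (T : List ℕ → Bool) (g : List ℕ → ℕ) (c : Code) : Code := bif validDec T g c then c else zc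

/-- raw addition -/
def addRaw (c c' : Code) : Code :=
  (pmul c.1 c'.2.1 ++ pmul c'.1 c.2.1, pmul c.2.1 c'.2.1, c.2.2 + c'.2.2)

/-- raw multiplication -/
def mulRaw (c c' : Code) : Code := (pmul c.1 c'.1, pmul c.2.1 c'.2.1, c.2.2 + c'.2.2)

/-- raw equality test -/
def eqRaw (T : List ℕ → Bool) (g : List ℕ → ℕ) (c c' : Code) : Bool :=
  leDec T g (shift [rt] (dbl (pmul c.2.1 c'.2.1))) (dbl (pmul c.1 c'.2.1 ++ pmul c'.1 c.2.1))

theorem primrec_pmul : Primrec₂ pmul := by
  have h1 : Primrec₂ (fun (p : (List (List ℕ) × List (List ℕ)) × List ℕ) (m' : List ℕ) =>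
      p.2 ++ m') := Primrec.list_append.comp (Primrec.snd.comp Primrec.fst) Primrec.snd
  have h2 : Primrec₂ (fun (p : List (List ℕ) × List (List ℕ)) (m : List ℕ) =>
      p.2.map (fun m' => m ++ m')) :=
    Primrec.list_map (f := fun p : (List (List ℕ) × List (List ℕ)) × List ℕ => p.1.2)
      (g := fun p m' => p.2 ++ m') (Primrec.snd.comp Primrec.fst) h1
  exact Primrec.list_flatMap (f := fun p : List (List ℕ) × List (List ℕ) => p.1)
    (g := fun p m => p.2.map (fun m' => m ++ m')) Primrec.fst h2

theorem primrec_shift : Primrec₂ shift := by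
  have h1 : Primrec₂ (fun (p : List ℕ × List (List ℕ)) (m' : List ℕ) => p.1 ++ m') :=
    Primrec.list_append.comp (Primrec.fst.comp Primrec.fst) Primrec.snd
  exact Primrec.list_map (f := fun p : List ℕ × List (List ℕ) => p.2) Primrec.snd h1

theorem primrec_dbl : Primrec dbl := by
  have h1 : Primrec₂ (fun (_ : List (List ℕ)) (m : List ℕ) => m ++ m) :=
    Primrec.list_append.comp Primrec.snd Primrec.snd
  exact Primrec.list_map Primrec.id h1

theorem primrec_rep : Primrec (fun C : ℕ => List.replicate C ut) := by
  have h1 : Primrec (fun C : ℕ => (List.range C).map (fun _ => ut)) :=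
    Primrec.list_map Primrec.list_range (Primrec.const ut).to₂
  refine h1.of_eq (fun C => ?_)
  simp [List.map_const']

include hTc hgc in
theorem computable_validDec : Computable (validDec T g) := by
  have hh : Computable (fun c : Code => dbl c.2.1) :=
    (primrec_dbl.comp (Primrec.fst.comp Primrec.snd)).to_comp
  have hf : Computable (fun c : Code => shift (List.replicate c.2.2 ut) (dbl c.1)) :=
    (primrec_shift.comp (primrec_rep.comp (Primrec.snd.comp Primrec.snd))
      (primrec_dbl.comp Primrec.fst)).to_comp
  have h1 : Computable (fun c : Code => leDec T g [] (dbl c.2.1)) :=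
    (computable_leDec hTc hgc).comp (Computable.const []) hh
  have h2 : Computable (fun c : Code => leDec T g (dbl c.2.1)
      (shift (List.replicate c.2.2 ut) (dbl c.1))) :=
    (computable_leDec hTc hgc).comp hh hf
  exact (Primrec.and.to_comp).comp (Primrec.not.to_comp.comp h1) h2

include hTc hgc in
theorem computable_nrm : Computable (nrm T g) :=
  Computable.cond (computable_validDec hTc hgc) Computable.id (Computable.const zc)

theorem primrec_addRaw : Primrec₂ addRaw := by
  have f1 : Primrec (fun p : Code × Code => p.1.1) := Primrec.fst.comp Primrec.fst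
  have h1 : Primrec (fun p : Code × Code => p.1.2.1) :=
    Primrec.fst.comp (Primrec.snd.comp Primrec.fst)
  have c1 : Primrec (fun p : Code × Code => p.1.2.2) :=
    Primrec.snd.comp (Primrec.snd.comp Primrec.fst)
  have f2 : Primrec (fun p : Code × Code => p.2.1) := Primrec.fst.comp Primrec.snd
  have h2 : Primrec (fun p : Code × Code => p.2.2.1) :=
    Primrec.fst.comp (Primrec.snd.comp Primrec.snd)
  have c2 : Primrec (fun p : Code × Code => p.2.2.2) :=
    Primrec.snd.comp (Primrec.snd.comp Primrec.snd)
  exact (Primrec.list_append.comp (primrec_pmul.comp f1 h2) (primrec_pmul.comp f2 h1)).pair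
    ((primrec_pmul.comp h1 h2).pair (Primrec.nat_add.comp c1 c2))

theorem primrec_mulRaw : Primrec₂ mulRaw := by
  have f1 : Primrec (fun p : Code × Code => p.1.1) := Primrec.fst.comp Primrec.fst
  have h1 : Primrec (fun p : Code × Code => p.1.2.1) :=
    Primrec.fst.comp (Primrec.snd.comp Primrec.fst)
  have c1 : Primrec (fun p : Code × Code => p.1.2.2) :=
    Primrec.snd.comp (Primrec.snd.comp Primrec.fst)
  have f2 : Primrec (fun p : Code × Code => p.2.1) := Primrec.fst.comp Primrec.snd
  have h2 : Primrec (fun p : Code × Code => p.2.2.1) :=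
    Primrec.fst.comp (Primrec.snd.comp Primrec.snd)
  have c2 : Primrec (fun p : Code × Code => p.2.2.2) :=
    Primrec.snd.comp (Primrec.snd.comp Primrec.snd)
  exact (primrec_pmul.comp f1 f2).pair
    ((primrec_pmul.comp h1 h2).pair (Primrec.nat_add.comp c1 c2))

include hTc hgc in
theorem computable_eqRaw : Computable₂ (eqRaw T g) := by
  have f1 : Primrec (fun p : Code × Code => p.1.1) := Primrec.fst.comp Primrec.fst
  have h1 : Primrec (fun p : Code × Code => p.1.2.1) :=
    Primrec.fst.comp (Primrec.snd.comp Primrec.fst)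
  have f2 : Primrec (fun p : Code × Code => p.2.1) := Primrec.fst.comp Primrec.snd
  have h2 : Primrec (fun p : Code × Code => p.2.2.1) :=
    Primrec.fst.comp (Primrec.snd.comp Primrec.snd)
  have a : Primrec (fun p : Code × Code => shift [rt] (dbl (pmul p.1.2.1 p.2.2.1))) :=
    primrec_shift.comp (Primrec.const [rt]) (primrec_dbl.comp (primrec_pmul.comp h1 h2))
  have b : Primrec (fun p : Code × Code => dbl (pmul p.1.1 p.2.2.1 ++ pmul p.2.1 p.1.2.1)) :=
    primrec_dbl.comp
      (Primrec.list_append.comp (primrec_pmul.comp f1 h2) (primrec_pmul.comp f2 h1))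
  exact (computable_leDec hTc hgc).comp a.to_comp b.to_comp

/-! ### Semantics of codes -/

variable (T g)

/-- validity -/
def Valid (c : Code) : Prop := xd T g c.2.1 ≠ 0 ∧ BB T g c.2.2 (xd T g c.1 / xd T g c.2.1)

theorem xf_shift (m : List ℕ) (f : List (List ℕ)) :
    (xf T g (shift m f)).orderTop = (xf T g f).orderTop + ((vl T g m : Gam) : WithTop Gam) := by
  unfold shift
  rw [← single_mul_xf, HahnSeries.orderTop_mul, HahnSeries.orderTop_single one_ne_zero, add_comm]

theorem vl_replicate (C : ℕ) : vl T g (List.replicate C ut) = C • tau T g := by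
  induction C with
  | zero => rw [zero_nsmul]; rfl
  | succ C ih =>
    have : List.replicate (C + 1) ut = [ut] ++ List.replicate C ut := rfl
    rw [this, vl_append, ih, succ_nsmul, add_comm]
    rfl

theorem orderTop_div_add (x y : Fld) (hy : y ≠ 0) (a : Gam) (b : Gam) :
    ((b : Gam) : WithTop Gam) ≤ (x / y).orderTop + (a : WithTop Gam) ↔
      y.orderTop + (b : WithTop Gam) ≤ x.orderTop + (a : WithTop Gam) := by
  have h1 : x.orderTop = (x / y).orderTop + y.orderTop := by
    rw [← HahnSeries.orderTop_mul, div_mul_cancel₀ _ hy]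
  have hfin : y.orderTop ≠ ⊤ := HahnSeries.orderTop_ne_top.2 hy
  rw [h1]
  have h2 : (x / y).orderTop + y.orderTop + (a : WithTop Gam) =
      y.orderTop + ((x / y).orderTop + (a : WithTop Gam)) := by abel
  rw [h2, WithTop.add_le_add_iff_left hfin]

theorem validDec_iff (c : Code) : validDec T g c = true ↔ Valid T g c := by
  unfold validDec Valid
  rw [Bool.and_eq_true, Bool.not_eq_true', ← Bool.not_eq_true, leDec_iff, leDec_iff]
  have h1 : ¬ ((xf T g []).orderTop ≤ (xf T g (dbl c.2.1)).orderTop) ↔ xd T g c.2.1 ≠ 0 := by
    rw [xf_nil, HahnSeries.orderTop_zero, top_le_iff, HahnSeries.orderTop_eq_top]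
    rfl
  rw [h1]
  constructor
  · rintro ⟨h0, h⟩
    refine ⟨h0, ?_⟩
    unfold BB
    have := (orderTop_div_add (xd T g c.1) (xd T g c.2.1) h0 (c.2.2 • tau T g) 0).2 (by
      rw [WithTop.coe_zero, add_zero]
      rw [xf_shift, vl_replicate] at h
      exact h)
    exact this
  · rintro ⟨h0, h⟩
    refine ⟨h0, ?_⟩
    have h2 := (orderTop_div_add (xd T g c.1) (xd T g c.2.1) h0 (c.2.2 • tau T g) 0).1 h
    rw [WithTop.coe_zero, add_zero] at h2
    rw [xf_shift, vl_replicate]
    exact h2

theorem valid_zc : Valid T g zc := by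
  refine ⟨?_, ?_⟩
  · change xd T g [[]] ≠ 0
    rw [xd_one]; exact one_ne_zero
  · change BB T g 0 (xd T g [] / xd T g [[]])
    rw [xd_nil, zero_div]
    exact BB_zero T g

theorem valid_oc : Valid T g oc := by
  refine ⟨?_, ?_⟩
  · change xd T g [[]] ≠ 0
    rw [xd_one]; exact one_ne_zero
  · change BB T g 0 (xd T g [[]] / xd T g [[]])
    rw [xd_one, div_one]
    exact BB_one T g

theorem valid_nrm (c : Code) : Valid T g (nrm T g c) := by
  unfold nrm
  cases h : validDec T g c with
  | true => exact (validDec_iff T g c).1 h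
  | false => exact valid_zc T g

/-- element of a valid code -/
noncomputable def elt (c : Code) (h : Valid T g c) : VK T g :=
  ⟨xd T g c.1 / xd T g c.2.1, ⟨_, _, rfl⟩, c.2.2, h.2⟩

/-- element of a code -/
noncomputable def sem (c : Code) : VK T g := elt T g (nrm T g c) (valid_nrm T g c)

theorem sem_of_valid (c : Code) (h : Valid T g c) :
    (sem T g c : Fld) = xd T g c.1 / xd T g c.2.1 := by
  have : nrm T g c = c := by
    unfold nrm
    rw [(validDec_iff T g c).2 h]
    rfl
  change xd T g (nrm T g c).1 / xd T g (nrm T g c).2.1 = _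
  rw [this]

theorem coe_sem (c : Code) :
    (sem T g c : Fld) = xd T g (nrm T g c).1 / xd T g (nrm T g c).2.1 := rfl

theorem sem_add_raw (c c' : Code) (h : Valid T g c) (h' : Valid T g c') :
    Valid T g (addRaw c c') ∧ (sem T g (addRaw c c') : Fld) = sem T g c + sem T g c' := by
  have e1 : xd T g (addRaw c c').2.1 = xd T g c.2.1 * xd T g c'.2.1 := xd_pmul T g _ _
  have e2 : xd T g (addRaw c c').1 =
      xd T g c.1 * xd T g c'.2.1 + xd T g c'.1 * xd T g c.2.1 := by
    change xd T g (pmul c.1 c'.2.1 ++ pmul c'.1 c.2.1) = _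
    rw [xd_append, xd_pmul, xd_pmul]
  have e3 : xd T g (addRaw c c').1 / xd T g (addRaw c c').2.1 =
      xd T g c.1 / xd T g c.2.1 + xd T g c'.1 / xd T g c'.2.1 := by
    rw [e1, e2, div_add_div _ _ h.1 h'.1]
    congr 1
    ring
  have hv : Valid T g (addRaw c c') := by
    refine ⟨by rw [e1]; exact mul_ne_zero h.1 h'.1, ?_⟩
    rw [e3]
    exact (h.2.add T g h'.2).mono T g (max_le (Nat.le_add_right _ _) (Nat.le_add_left _ _))
  refine ⟨hv, ?_⟩
  rw [sem_of_valid T g _ hv, sem_of_valid T g _ h, sem_of_valid T g _ h', e3]

theorem sem_mul_raw (c c' : Code) (h : Valid T g c) (h' : Valid T g c') :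
    Valid T g (mulRaw c c') ∧ (sem T g (mulRaw c c') : Fld) = sem T g c * sem T g c' := by
  have e1 : xd T g (mulRaw c c').2.1 = xd T g c.2.1 * xd T g c'.2.1 := xd_pmul T g _ _
  have e2 : xd T g (mulRaw c c').1 = xd T g c.1 * xd T g c'.1 := xd_pmul T g _ _
  have e3 : xd T g (mulRaw c c').1 / xd T g (mulRaw c c').2.1 =
      (xd T g c.1 / xd T g c.2.1) * (xd T g c'.1 / xd T g c'.2.1) := by
    rw [e1, e2, div_mul_div_comm]
  have hv : Valid T g (mulRaw c c') := by
    refine ⟨by rw [e1]; exact mul_ne_zero h.1 h'.1, ?_⟩
    rw [e3]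
    exact h.2.mul T g h'.2
  refine ⟨hv, ?_⟩
  rw [sem_of_valid T g _ hv, sem_of_valid T g _ h, sem_of_valid T g _ h', e3]

theorem sem_nrm (c : Code) : sem T g (nrm T g c) = sem T g c := by
  apply Subtype.ext
  rw [sem_of_valid T g _ (valid_nrm T g c)]
  rfl

theorem sem_add (c c' : Code) :
    sem T g (addRaw (nrm T g c) (nrm T g c')) = sem T g c + sem T g c' := by
  apply Subtype.ext
  rw [(sem_add_raw T g _ _ (valid_nrm T g c) (valid_nrm T g c')).2, sem_nrm, sem_nrm]
  rfl

theorem sem_mul (c c' : Code) :
    sem T g (mulRaw (nrm T g c) (nrm T g c')) = sem T g c * sem T g c' := by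
  apply Subtype.ext
  rw [(sem_mul_raw T g _ _ (valid_nrm T g c) (valid_nrm T g c')).2, sem_nrm, sem_nrm]
  rfl

theorem sem_zc : sem T g zc = 0 := by
  apply Subtype.ext
  rw [sem_of_valid T g _ (valid_zc T g)]
  change xd T g [] / xd T g [[]] = 0
  rw [xd_nil, zero_div]

theorem sem_oc : sem T g oc = 1 := by
  apply Subtype.ext
  rw [sem_of_valid T g _ (valid_oc T g)]
  change xd T g [[]] / xd T g [[]] = 1
  rw [xd_one, div_one]

theorem sem_surj : Function.Surjective (sem T g) := by
  rintro ⟨x, ⟨f, h, hfh⟩, C, hC⟩
  by_cases h0 : xd T g h = 0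
  · refine ⟨zc, ?_⟩
    rw [sem_zc]
    apply Subtype.ext
    change (0 : Fld) = x
    rw [hfh, h0, div_zero]
  · have hv : Valid T g (f, h, C) := ⟨h0, by rw [← hfh]; exact hC⟩
    refine ⟨(f, h, C), ?_⟩
    apply Subtype.ext
    rw [sem_of_valid T g _ hv]
    exact hfh.symm

theorem eqRaw_iff (hP : Dom T g rt ut) (c c' : Code) (h : Valid T g c) (h' : Valid T g c') :
    eqRaw T g c c' = true ↔ sem T g c - sem T g c' ∈ IK T g := by
  unfold eqRaw
  rw [leDec_iff, xf_shift, mem_IK]
  have hsub : ((sem T g c - sem T g c' : VK T g) : Fld) =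
      (xd T g (pmul c.1 c'.2.1 ++ pmul c'.1 c.2.1)) / (xd T g (pmul c.2.1 c'.2.1)) := by
    have e0 : ((sem T g c - sem T g c' : VK T g) : Fld) = (sem T g c : Fld) + (sem T g c' : Fld) := by
      rw [sub_eq_add_neg]
      change (sem T g c : Fld) + -(sem T g c' : Fld) = _
      rw [neg_eq_self]
    rw [e0, sem_of_valid T g _ h, sem_of_valid T g _ h', xd_append, xd_pmul, xd_pmul, xd_pmul,
      div_add_div _ _ h.1 h'.1]
    congr 1
    ring
  have hne : xd T g (pmul c.2.1 c'.2.1) ≠ 0 := by
    rw [xd_pmul]; exact mul_ne_zero h.1 h'.1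
  rw [hsub, SS_iff T g hP _ ⟨_, _, rfl⟩]
  have h1 := orderTop_div_add (xd T g (pmul c.1 c'.2.1 ++ pmul c'.1 c.2.1))
    (xd T g (pmul c.2.1 c'.2.1)) hne 0 (om T g)
  rw [WithTop.coe_zero, add_zero, add_zero] at h1
  rw [h1]
  rfl

end

end Pool.Agent.LibFed070
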