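import Mathlib

set_option autoImplicit false

/-! Computability helpers for MP_fed070_lc. -/

namespace Pool.Agent.LibFed070

variable {α β γ σ : Type*} [Primcodable α] [Primcodable β] [Primcodable γ] [Primcodable σ]

theorem computable_foldl {f : α → List β} {g : α → σ} {h : α → σ × β → σ}
    (hf : Computable f) (hg : Computable g) (hh : Computable₂ h) :
    Computable fun a => (f a).foldl (fun s b => h a (s, b)) (g a) := by
  have hstep : Computable₂ fun (a : α) (p : ℕ × σ) =>
      (Option.casesOn (motive := fun _ => σ) ((f a)[p.1]?) p.2 (fun b => h a (p.2, b)) : σ) := by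
    have : Computable fun p : α × (ℕ × σ) =>
        (Option.casesOn (motive := fun _ => σ) ((f p.1)[p.2.1]?) p.2.2
          (fun b => h p.1 (p.2.2, b)) : σ) := by
      refine Computable.option_casesOn (g := fun (p : α × (ℕ × σ)) b => h p.1 (p.2.2, b)) ?_ ?_ ?_
      · exact Computable.list_getElem?.comp (hf.comp Computable.fst)
          (Computable.fst.comp Computable.snd)
      · exact Computable.snd.comp Computable.snd
      · exact hh.comp (Computable.fst.comp Computable.fst)
          (Computable.pair (Computable.snd.comp (Computable.snd.comp Computable.fst))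
            Computable.snd)
    exact this
  have h1 := Computable.nat_rec (Computable.list_length.comp hf) hg hstep
  refine h1.of_eq (fun a => ?_)
  have key : ∀ n, n ≤ (f a).length → Nat.rec (motive := fun _ => σ) (g a)
      (fun n s => (Option.casesOn (motive := fun _ => σ) ((f a)[n]?) s (fun b => h a (s, b)))) n =
      ((f a).take n).foldl (fun s b => h a (s, b)) (g a) := by
    intro n
    induction n with
    | zero => intro _; simp
    | succ n ih =>
      intro hn
      have hlt : n < (f a).length := by omega
      have ih' := ih (by omega)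
      simp only [ih']
      rw [List.getElem?_eq_getElem hlt, List.take_succ_eq_append_getElem hlt, List.foldl_append]
      rfl
  have := key (f a).length le_rfl
  rw [List.take_length] at this
  exact this

theorem computable_flatMap {f : α → List β} {g : α → β → List σ}
    (hf : Computable f) (hg : Computable₂ g) : Computable fun a => (f a).flatMap (g a) := by
  have hstep : Computable₂ fun (a : α) (p : List σ × β) => p.1 ++ g a p.2 := by
    have : Computable fun p : α × (List σ × β) => p.2.1 ++ g p.1 p.2.2 :=
        Computable.list_append.comp (Computable.fst.comp Computable.snd)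
          (hg.comp Computable.fst (Computable.snd.comp Computable.snd))
    exact this
  have h1 := computable_foldl hf (Computable.const []) hstep
  refine h1.of_eq (fun a => ?_)
  have key : ∀ (l : List β) (s : List σ), l.foldl (fun s b => s ++ g a b) s =
      s ++ l.flatMap (g a) := by
    intro l
    induction l with
    | nil => intro s; simp
    | cons b l ih => intro s; simp [ih]
  simpa using key (f a) []

theorem computable_map {f : α → List β} {g : α → β → σ}
    (hf : Computable f) (hg : Computable₂ g) : Computable fun a => (f a).map (g a) := by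
  have h1 : Computable fun a => (f a).flatMap (fun b => [g a b]) :=
    computable_flatMap (g := fun a b => [g a b]) hf
      ((Computable.list_cons.comp hg (Computable.const [])))
  refine h1.of_eq (fun a => ?_)
  induction (f a) with
  | nil => rfl
  | cons b l ih => simp [ih]

theorem computable_list_range : Computable List.range := Primrec.list_range.to_comp

theorem primrec_list_sum : Primrec (fun l : List ℕ => l.sum) := by
  have h1 : Primrec fun l : List ℕ => l.foldl (fun s b => s + b) 0 :=
    Primrec.list_foldl (h := fun _ (p : ℕ × ℕ) => p.1 + p.2) Primrec.id (Primrec.const 0)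
      (Primrec.nat_add.comp (Primrec.fst.comp Primrec.snd) (Primrec.snd.comp Primrec.snd))
  refine h1.of_eq (fun l => ?_)
  rw [List.sum_eq_foldl]

/-- bounded search / canonical representative -/
theorem computable_find {p : ℕ → ℕ → Bool} (hp : Computable₂ p) (h : ∀ a, ∃ b, p a b = true) :
    Computable fun a => Nat.find (h a) := by
  have h1 : Partrec fun a => Nat.rfind (fun b => (Part.some (p a b))) :=
    Partrec.rfind (p := fun a b => Part.some (p a b)) hp
  refine h1.of_eq_tot (fun a => ?_)
  refine Nat.mem_rfind.2 ⟨?_, ?_⟩
  · simpa using (Nat.find_spec (h a)).symm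
  · intro m hm
    have h2 := Nat.find_min (h a) hm
    have h3 : p a m = false := by simpa using h2
    simp [h3]

/-! ### Oracles -/

theorem prefix_recursiveIn (χ : ℕ → ℕ) :
    Nat.RecursiveIn {(PFun.lift χ : ℕ →. ℕ)}
      (fun n => Part.some (Encodable.encode ((List.range n).map χ))) := by
  -- primitive recursion on a dummy parameter
  have hstep : Nat.RecursiveIn {(PFun.lift χ : ℕ →. ℕ)}
      (fun p => Part.some (Encodable.encode
        (((Encodable.decode (α := List ℕ) p.unpair.2.unpair.2).getD []) ++
          [χ p.unpair.2.unpair.1]))) := by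
    have hor : Nat.RecursiveIn {(PFun.lift χ : ℕ →. ℕ)} (PFun.lift χ : ℕ →. ℕ) :=
      Nat.RecursiveIn.oracle _ (by simp)
    have hidx : Nat.Primrec (fun p : ℕ => p.unpair.2.unpair.1) :=
      Nat.Primrec.left.comp Nat.Primrec.right
    have h1 : Nat.RecursiveIn {(PFun.lift χ : ℕ →. ℕ)}
        (fun p => Part.some (χ p.unpair.2.unpair.1)) := by
      have := Nat.RecursiveIn.comp hor (hidx.recursiveIn (O := {(PFun.lift χ : ℕ →. ℕ)}))
      refine this.of_eq (fun p => ?_)
      exact Part.bind_some _ _
    have h2 : Nat.RecursiveIn {(PFun.lift χ : ℕ →. ℕ)}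
        (fun p => Part.some (Nat.pair p.unpair.2.unpair.2 (χ p.unpair.2.unpair.1))) := by
      have := Nat.RecursiveIn.pair
        ((Nat.Primrec.right.comp Nat.Primrec.right).recursiveIn (O := {(PFun.lift χ : ℕ →. ℕ)}))
        h1
      refine this.of_eq (fun p => ?_)
      simp [Seq.seq]
    have h3 : Nat.Partrec (fun q : ℕ => Part.some (Encodable.encode
        (((Encodable.decode (α := List ℕ) q.unpair.1).getD []) ++ [q.unpair.2]))) := by
      have : Primrec (fun q : ℕ => (Encodable.encode
        (((Encodable.decode (α := List ℕ) q.unpair.1).getD []) ++ [q.unpair.2]))) := by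
        refine Primrec.encode.comp ?_
        refine Primrec.list_append.comp ?_ ?_
        · exact Primrec.option_getD.comp
            (Primrec.decode.comp (Primrec.fst.comp Primrec.unpair)) (Primrec.const [])
        · exact Primrec.list_cons.comp (Primrec.snd.comp Primrec.unpair) (Primrec.const [])
      exact Partrec.nat_iff.1 this.to_comp
    have h4 := Nat.RecursiveIn.comp (h3.recursiveIn (O := {(PFun.lift χ : ℕ →. ℕ)})) h2
    refine h4.of_eq (fun p => ?_)
    simp
  have hz : Nat.RecursiveIn {(PFun.lift χ : ℕ →. ℕ)}
      (fun _ => Part.some (Encodable.encode ([] : List ℕ))) := by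
    have : Nat.Primrec (fun _ => Encodable.encode ([] : List ℕ)) := Nat.Primrec.const _
    exact this.recursiveIn
  have hrec := Nat.RecursiveIn.prec hz hstep
  have harg : Nat.RecursiveIn {(PFun.lift χ : ℕ →. ℕ)}
      (fun n => Part.some (Nat.pair 0 n)) := by
    have : Nat.Primrec (fun n => Nat.pair 0 n) := (Nat.Primrec.const 0).pair Nat.Primrec.id
    exact this.recursiveIn
  have h5 := Nat.RecursiveIn.comp hrec harg
  refine h5.of_eq (fun n => ?_)
  simp only [Part.bind_eq_bind, Part.bind_some, Nat.unpair_pair]
  induction n with
  | zero => simp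
  | succ n ih =>
    simp only [ih, Part.bind_some, Encodable.encodek, Option.getD_some]
    rw [List.range_succ, List.map_append]
    simp

/-- A function computed from a computable amount of oracle information is Turing reducible to the
oracle. -/
theorem turingReducible_of_prefix (χ f : ℕ → ℕ) (N : ℕ → ℕ) (G : ℕ → List ℕ → ℕ)
    (hN : Computable N) (hG : Computable₂ G)
    (h : ∀ n, f n = G n ((List.range (N n)).map χ)) :
    TuringReducible (PFun.lift f) (PFun.lift χ) := by
  unfold TuringReducible
  rw [RecursiveIn.iff_nat]
  have h1 : Nat.RecursiveIn {(PFun.lift χ : ℕ →. ℕ)}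
      (fun n => Part.some (Encodable.encode ((List.range (N n)).map χ))) := by
    have hN' : Nat.Partrec (fun n => Part.some (N n)) := Partrec.nat_iff.1 hN
    have := Nat.RecursiveIn.comp (prefix_recursiveIn χ)
      (hN'.recursiveIn (O := {(PFun.lift χ : ℕ →. ℕ)}))
    refine this.of_eq (fun n => ?_)
    simp
  have h2 : Nat.RecursiveIn {(PFun.lift χ : ℕ →. ℕ)}
      (fun n => Part.some (Nat.pair n (Encodable.encode ((List.range (N n)).map χ)))) := by
    have := Nat.RecursiveIn.pair
      ((Nat.Primrec.id).recursiveIn (O := {(PFun.lift χ : ℕ →. ℕ)})) h1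
    refine this.of_eq (fun n => ?_)
    simp [Seq.seq]
  have h3 : Nat.Partrec (fun q : ℕ => Part.some (G q.unpair.1
      ((Encodable.decode (α := List ℕ) q.unpair.2).getD []))) := by
    have : Computable (fun q : ℕ => (G q.unpair.1
      ((Encodable.decode (α := List ℕ) q.unpair.2).getD []))) := by
      refine hG.comp (Computable.fst.comp Computable.unpair) ?_
      exact (Primrec.option_getD.comp
            (Primrec.decode.comp (Primrec.snd.comp Primrec.unpair)) (Primrec.const [])).to_comp
    exact Partrec.nat_iff.1 this
  have h4 := Nat.RecursiveIn.comp (h3.recursiveIn (O := {(PFun.lift χ : ℕ →. ℕ)})) h2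
  refine h4.of_eq (fun n => ?_)
  simp only [Part.bind_eq_bind, Part.bind_some, Nat.unpair_pair, Encodable.encodek,
    Option.getD_some]
  rw [← h n]
  rfl

end Pool.Agent.LibFed070
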