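import Pool.Agent.LibFed070.Codes

set_option autoImplicit false

/-! The computable ring of a tree with a path. -/

namespace Pool.Agent.LibFed070

section

variable (T : List ℕ → Bool) (g : List ℕ → ℕ)

/-- decoding of natural numbers -/
def dec (n : ℕ) : Code := (Encodable.decode (α := Code) n).getD zc

theorem dec_encode (c : Code) : dec (Encodable.encode c) = c := by
  unfold dec
  rw [Encodable.encodek]
  rfl

theorem primrec_dec : Primrec dec := Primrec.option_getD.comp Primrec.decode (Primrec.const zc)

/-- The ring. -/
abbrev RR : Type := VK T g ⧸ IK T g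

/-- The coding map. -/
noncomputable def nu (n : ℕ) : RR T g := Ideal.Quotient.mk (IK T g) (sem T g (dec n))

theorem nu_surj : Function.Surjective (nu T g) := by
  intro x
  obtain ⟨y, rfl⟩ := Ideal.Quotient.mk_surjective x
  obtain ⟨c, rfl⟩ := sem_surj T g y
  exact ⟨Encodable.encode c, by unfold nu; rw [dec_encode]⟩

/-- addition of codes -/
def addC (a b : ℕ) : ℕ := Encodable.encode (addRaw (nrm T g (dec a)) (nrm T g (dec b)))

/-- multiplication of codes -/
def mulC (a b : ℕ) : ℕ := Encodable.encode (mulRaw (nrm T g (dec a)) (nrm T g (dec b)))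

/-- equality of codes -/
def eqC (a b : ℕ) : Bool := eqRaw T g (nrm T g (dec a)) (nrm T g (dec b))

theorem nu_add (a b : ℕ) : nu T g (addC T g a b) = nu T g a + nu T g b := by
  unfold nu addC
  rw [dec_encode, sem_add, map_add]

theorem nu_mul (a b : ℕ) : nu T g (mulC T g a b) = nu T g a * nu T g b := by
  unfold nu mulC
  rw [dec_encode, sem_mul, map_mul]

theorem nu_neg (a : ℕ) : nu T g a = - nu T g a := by
  unfold nu
  rw [← map_neg]
  congr 1
  apply Subtype.ext
  exact (neg_eq_self _).symm

theorem eqC_iff (hP : Dom T g rt ut) (a b : ℕ) : eqC T g a b = true ↔ nu T g a = nu T g b := by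
  unfold eqC nu
  rw [eqRaw_iff T g hP _ _ (valid_nrm T g _) (valid_nrm T g _), sem_nrm, sem_nrm,
    Ideal.Quotient.eq]

variable {T g} in
theorem computable_addC (hTc : Computable T) (hgc : Computable g) : Computable₂ (addC T g) := by
  have h := (computable_nrm hTc hgc).comp primrec_dec.to_comp
  exact Computable.encode.comp (primrec_addRaw.to_comp.comp (h.comp Computable.fst)
    (h.comp Computable.snd))

variable {T g} in
theorem computable_mulC (hTc : Computable T) (hgc : Computable g) : Computable₂ (mulC T g) := by
  have h := (computable_nrm hTc hgc).comp primrec_dec.to_comp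
  exact Computable.encode.comp (primrec_mulRaw.to_comp.comp (h.comp Computable.fst)
    (h.comp Computable.snd))

variable {T g} in
theorem computable_eqC (hTc : Computable T) (hgc : Computable g) : Computable₂ (eqC T g) := by
  have h := (computable_nrm hTc hgc).comp primrec_dec.to_comp
  exact (computable_eqRaw hTc hgc).comp (h.comp Computable.fst) (h.comp Computable.snd)

/-- the characteristic function attached to a path -/
noncomputable def chf (f : ℕ → ℕ) (n : ℕ) : ℕ := by
  classical
  exact if (univ (nu T g) (nu_surj T g) n = true ∧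
    InP T g (cutOf T g f) (sem T g (dec n) : Fld)) then 1 else 0

theorem chf_eq_one (f : ℕ → ℕ) (n : ℕ) : chf T g f n = 1 ↔
    (univ (nu T g) (nu_surj T g) n = true ∧ InP T g (cutOf T g f) (sem T g (dec n) : Fld)) := by
  classical
  unfold chf
  split_ifs with h <;> simp [h]

theorem chf_zero_or_one (f : ℕ → ℕ) (n : ℕ) : chf T g f n = 0 ∨ chf T g f n = 1 := by
  classical
  unfold chf
  split_ifs <;> simp

theorem mk_mem_iff (𝔮 : Ideal (VK T g)) (hI : IK T g ≤ 𝔮) (x : VK T g) :
    Ideal.Quotient.mk (IK T g) x ∈ 𝔮.map (Ideal.Quotient.mk (IK T g)) ↔ x ∈ 𝔮 :=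
  Ideal.mem_quotient_iff_mem hI

theorem chf_eq_chi (f : ℕ → ℕ) (hS : IsCut T g (cutOf T g f)) :
    chf T g f = chi (nu T g) (nu_surj T g)
      ((idealOf T g (cutOf T g f) hS).map (Ideal.Quotient.mk (IK T g))) := by
  funext n
  have h1 : chf T g f n = 1 ↔ chi (nu T g) (nu_surj T g)
      ((idealOf T g (cutOf T g f) hS).map (Ideal.Quotient.mk (IK T g))) n = 1 := by
    rw [chf_eq_one, chi_eq_one]
    unfold nu
    rw [mk_mem_iff T g _ (IK_le_idealOf T g _ hS), mem_idealOf]
  rcases chf_zero_or_one T g f n with h | h
  · rcases chi_zero_or_one (nu T g) (nu_surj T g)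
      ((idealOf T g (cutOf T g f) hS).map (Ideal.Quotient.mk (IK T g))) n with h' | h'
    · rw [h, h']
    · rw [← h1] at h'; omega
  · rw [h, h1.1 h]

theorem map_isPrime (f : ℕ → ℕ) (hS : IsCut T g (cutOf T g f)) :
    ((idealOf T g (cutOf T g f) hS).map (Ideal.Quotient.mk (IK T g))).IsPrime := by
  have := idealOf_isPrime T g (cutOf T g f) hS
  apply Ideal.map_isPrime_of_surjective Ideal.Quotient.mk_surjective
  rw [Ideal.mk_ker]
  exact IK_le_idealOf T g _ hS

variable {T g} in
/-- the bijection -/
theorem bijOn_chf (hT : TreeHyp T g) :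
    Set.BijOn (chf T g) (Paths T)
      (primeSet (univ (nu T g) (nu_surj T g))
        (fun a b => rep (nu T g) (nu_surj T g) (nu T g a + nu T g b))
        (fun a b => rep (nu T g) (nu_surj T g) (nu T g a * nu T g b))
        (rep (nu T g) (nu_surj T g) 0) (rep (nu T g) (nu_surj T g) 1)) := by
  refine ⟨?_, ?_, ?_⟩
  · intro f hf
    have hS := isCut_cutOf hT f hf
    rw [chf_eq_chi T g f hS]
    exact chi_mem _ _ _ (map_isPrime T g f hS)
  · intro f hf f' hf' heq
    have hS := isCut_cutOf hT f hf
    have hS' := isCut_cutOf hT f' hf'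
    apply cutOf_injOn hT f f' hf hf'
    rw [← cutIdeal_idealOf T g _ hS, ← cutIdeal_idealOf T g _ hS']
    rw [chf_eq_chi T g f hS, chf_eq_chi T g f' hS'] at heq
    ext n
    change zz T g n ∈ idealOf T g _ hS ↔ zz T g n ∈ idealOf T g _ hS'
    set m := rep (nu T g) (nu_surj T g) (Ideal.Quotient.mk (IK T g) (zz T g n)) with hm
    have hUm : univ (nu T g) (nu_surj T g) m = true := univ_rep _ _ _
    have hnm : nu T g m = Ideal.Quotient.mk (IK T g) (zz T g n) := ν_rep _ _ _
    have h1 := chi_eq_one (nu T g) (nu_surj T g)
      ((idealOf T g (cutOf T g f) hS).map (Ideal.Quotient.mk (IK T g))) m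
    have h2 := chi_eq_one (nu T g) (nu_surj T g)
      ((idealOf T g (cutOf T g f') hS').map (Ideal.Quotient.mk (IK T g))) m
    rw [hnm, mk_mem_iff T g _ (IK_le_idealOf T g _ hS)] at h1
    rw [hnm, mk_mem_iff T g _ (IK_le_idealOf T g _ hS')] at h2
    have h3 := congrFun heq m
    constructor
    · intro h
      have := h1.2 ⟨hUm, h⟩
      rw [h3] at this
      exact (h2.1 this).2
    · intro h
      have := h2.2 ⟨hUm, h⟩
      rw [← h3] at this
      exact (h1.1 this).2
  · intro χ hχ
    obtain ⟨𝔭, h𝔭, rfl⟩ := exists_prime_of_mem (nu T g) (nu_surj T g) χ hχ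
    set 𝔮 := 𝔭.comap (Ideal.Quotient.mk (IK T g)) with h𝔮
    have h𝔮p : 𝔮.IsPrime := Ideal.IsPrime.comap _
    have hI : IK T g ≤ 𝔮 := by
      intro x hx
      rw [h𝔮, Ideal.mem_comap, Ideal.Quotient.eq_zero_iff_mem.2 hx]
      exact 𝔭.zero_mem
    have hS := isCut_cutIdeal T g 𝔮 h𝔮p hI
    obtain ⟨f, hf, hfS⟩ := exists_path_of_isCut hT _ hS
    have hS' := isCut_cutOf hT f hf
    have heq := eq_idealOf T g 𝔮 h𝔮p hI (cutOf T g f) hS' hfS
    refine ⟨f, hf, ?_⟩
    rw [chf_eq_chi T g f hS', ← heq]
    congr 1
    rw [h𝔮]
    exact Ideal.map_comap_of_surjective _ Ideal.Quotient.mk_surjective _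

/-! ### Deciding membership from the path -/

/-- membership of a list of naturals in a list, decided -/
def memDec (σ : List ℕ) (L : List (List ℕ)) : Bool := L.any (fun τ => decide (τ = σ))

theorem memDec_iff (σ : List ℕ) (L : List (List ℕ)) : memDec σ L = true ↔ σ ∈ L := by
  unfold memDec
  simp

theorem computable_memDec : Computable₂ memDec := by
  have h : Computable₂ (fun (p : List ℕ × List (List ℕ)) (τ : List ℕ) => decide (τ = p.1)) := by
    have h1 : Primrec₂ (fun a b : List ℕ => decide (a = b)) := (Primrec.eq (α := List ℕ)).decide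
    exact h1.to_comp.comp Computable.snd (Computable.fst.comp Computable.fst)
  exact computable_any (f := fun p : List ℕ × List (List ℕ) => p.2) Computable.snd h

/-- deciding membership in the prime ideal from an initial segment `σ` of the path -/
def inDec (c : Code) (σ : List ℕ) : Bool :=
  (!validDec T g c) || (leDec T g (shift [rt] (dbl c.2.1)) (dbl c.1) ||
    ((c.1 ++ c.2.1).flatten.any (fun n => memDec (σ.take n.unpair.1) (bas T g n) &&
      leDec T g (shift [n] (dbl c.2.1)) (dbl c.1))))

variable {T g} in
theorem computable_inDec (hTc : Computable T) (hgc : Computable g) :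
    Computable₂ (inDec T g) := by
  have hv : Computable (fun p : Code × List ℕ => !validDec T g p.1) :=
    Primrec.not.to_comp.comp ((computable_validDec hTc hgc).comp Computable.fst)
  have h1 : Computable (fun p : Code × List ℕ =>
      leDec T g (shift [rt] (dbl p.1.2.1)) (dbl p.1.1)) :=
    (computable_leDec hTc hgc).comp
      (primrec_shift.comp (Primrec.const [rt])
        (primrec_dbl.comp (Primrec.fst.comp (Primrec.snd.comp Primrec.fst)))).to_comp
      (primrec_dbl.comp (Primrec.fst.comp Primrec.fst)).to_comp
  have hlist : Computable (fun p : Code × List ℕ => (p.1.1 ++ p.1.2.1).flatten) :=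
    (Primrec.list_flatten.comp (Primrec.list_append.comp (Primrec.fst.comp Primrec.fst)
      (Primrec.fst.comp (Primrec.snd.comp Primrec.fst)))).to_comp
  have htake : Computable (fun p : (Code × List ℕ) × ℕ => p.1.2.take p.2.unpair.1) :=
    (Primrec.list_take.comp (Primrec.fst.comp (Primrec.unpair.comp Primrec.snd))
      (Primrec.snd.comp Primrec.fst)).to_comp
  have hmem : Computable (fun p : (Code × List ℕ) × ℕ =>
      memDec (p.1.2.take p.2.unpair.1) (bas T g p.2)) :=
    computable_memDec.comp htake ((computable_bas hTc hgc).comp Computable.snd)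
  have hle : Computable (fun p : (Code × List ℕ) × ℕ =>
      leDec T g (shift [p.2] (dbl p.1.1.2.1)) (dbl p.1.1.1)) :=
    (computable_leDec hTc hgc).comp
      (primrec_shift.comp (Primrec.list_cons.comp Primrec.snd (Primrec.const []))
        (primrec_dbl.comp (Primrec.fst.comp (Primrec.snd.comp (Primrec.fst.comp
          Primrec.fst))))).to_comp
      (primrec_dbl.comp (Primrec.fst.comp (Primrec.fst.comp Primrec.fst))).to_comp
  have hany : Computable (fun p : Code × List ℕ => ((p.1.1 ++ p.1.2.1).flatten.any
      (fun n => memDec (p.2.take n.unpair.1) (bas T g n) &&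
      leDec T g (shift [n] (dbl p.1.2.1)) (dbl p.1.1)))) :=
    computable_any (f := fun p : Code × List ℕ => (p.1.1 ++ p.1.2.1).flatten)
      (p := fun p n => memDec (p.2.take n.unpair.1) (bas T g n) &&
        leDec T g (shift [n] (dbl p.1.2.1)) (dbl p.1.1)) hlist
      ((Primrec.and.to_comp).comp hmem hle)
  exact (Primrec.or.to_comp).comp hv ((Primrec.or.to_comp).comp h1 hany)

theorem leDec_shift_iff (n : ℕ) (c : Code) (hv : Valid T g c) :
    leDec T g (shift [n] (dbl c.2.1)) (dbl c.1) = true ↔
      ((vl T g [n] : Gam) : WithTop Gam) ≤ (sem T g c : Fld).orderTop := by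
  rw [leDec_iff, xf_shift, sem_of_valid T g c hv]
  have h1 := orderTop_div_add (xd T g c.1) (xd T g c.2.1) hv.1 0 (vl T g [n])
  rw [WithTop.coe_zero, add_zero, add_zero] at h1
  rw [h1]
  rfl

variable {T g} in
theorem inDec_iff (hT : TreeHyp T g) (f : ℕ → ℕ) (hf : f ∈ Paths T) (c : Code) (N : ℕ)
    (hN : Encodable.encode c ≤ N) :
    inDec T g c (seg f N) = true ↔ InP T g (cutOf T g f) (sem T g c : Fld) := by
  have hS := isCut_cutOf hT f hf
  unfold inDec
  rw [Bool.or_eq_true, Bool.or_eq_true, Bool.not_eq_true', List.any_eq_true]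
  by_cases hv : validDec T g c = true
  · have hval := (validDec_iff T g c).1 hv
    rw [leDec_shift_iff T g rt c hval]
    have hlevel : ∀ n ∈ (c.1 ++ c.2.1).flatten, n.unpair.1 ≤ N := by
      intro n hn
      rw [List.mem_flatten] at hn
      obtain ⟨m, hm, hnm⟩ := hn
      have h1 := mem_le_encode m n hnm
      have h2 : Encodable.encode m ≤ Encodable.encode c := by
        have hc : Encodable.encode c = Nat.pair (Encodable.encode c.1)
          (Nat.pair (Encodable.encode c.2.1) (Encodable.encode c.2.2)) := rfl
        rw [hc]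
        rcases List.mem_append.1 hm with h | h
        · exact (mem_le_encode _ m h).trans (Nat.left_le_pair _ _)
        · exact ((mem_le_encode _ m h).trans (Nat.left_le_pair _ _)).trans (Nat.right_le_pair _ _)
      exact (Nat.unpair_left_le n).trans (h1.trans (h2.trans hN))
    have hcut : ∀ n ∈ (c.1 ++ c.2.1).flatten,
        (memDec ((seg f N).take n.unpair.1) (bas T g n) = true ↔ n ∈ cutOf T g f) := by
      intro n hn
      rw [memDec_iff, seg_take f N _ (hlevel n hn)]
      rfl
    constructor
    · rintro (h | h | ⟨n, hn, h⟩)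
      · rw [hv] at h; exact absurd h (by decide)
      · exact ⟨rt, hS.rt_mem, 1, by rw [pow_one]; exact h⟩
      · rw [Bool.and_eq_true, hcut n hn, leDec_shift_iff T g n c hval] at h
        exact ⟨n, h.1, 1, by rw [pow_one]; exact h.2⟩
    · intro h
      right
      by_cases h0 : (sem T g c : Fld) = 0
      · left
        rw [h0, HahnSeries.orderTop_zero]
        exact le_top
      · right
        have hmem : sem T g c ∈ idealOf T g (cutOf T g f) hS := h
        obtain ⟨n, ⟨A, hA, hnA⟩, hzn, hle⟩ := cls_frac T g _ (idealOf_isPrime T g _ hS)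
          (sem T g c) c.1 c.2.1 (sem_of_valid T g c hval) h0 hmem
        have hnmem : n ∈ (c.1 ++ c.2.1).flatten := List.mem_flatten.2 ⟨A, hA, hnA⟩
        refine ⟨n, hnmem, ?_⟩
        rw [Bool.and_eq_true, hcut n hnmem, leDec_shift_iff T g n c hval]
        refine ⟨?_, hle⟩
        have h1 := cutIdeal_idealOf T g _ hS
        rw [← h1]
        exact hzn
  · have hv' : validDec T g c = false := by simpa using hv
    have hsem : (sem T g c : Fld) = 0 := by
      have h1 : nrm T g c = zc := by unfold nrm; rw [hv']; rfl
      rw [coe_sem, h1]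
      change xd T g [] / xd T g [[]] = 0
      rw [xd_nil, zero_div]
    constructor
    · intro _
      refine ⟨rt, hS.rt_mem, 1, ?_⟩
      rw [pow_one, hsem, HahnSeries.orderTop_zero]
      exact le_top
    · intro _
      exact Or.inl hv'

variable {T g} in
theorem chf_reducible (hTc : Computable T) (hgc : Computable g) (hT : TreeHyp T g)
    (hP : Dom T g rt ut) (f : ℕ → ℕ) (hf : f ∈ Paths T) :
    TuringReducible (PFun.lift (chf T g f)) (PFun.lift f) := by
  have hU := computable_univ (nu T g) (nu_surj T g) (computable_eqC hTc hgc) (eqC_iff T g hP)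
  apply turingReducible_of_prefix f (chf T g f) (fun n => Encodable.encode (dec n))
    (fun n σ => bif (univ (nu T g) (nu_surj T g) n && inDec T g (dec n) σ) then 1 else 0)
  · exact Computable.encode.comp primrec_dec.to_comp
  · have h1 : Computable (fun p : ℕ × List ℕ =>
        (univ (nu T g) (nu_surj T g) p.1 && inDec T g (dec p.1) p.2)) :=
      (Primrec.and.to_comp).comp (hU.comp Computable.fst)
        ((computable_inDec hTc hgc).comp (primrec_dec.to_comp.comp Computable.fst) Computable.snd)
    exact Computable.cond h1 (Computable.const 1) (Computable.const 0)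
  · intro n
    have h1 := inDec_iff hT f hf (dec n) (Encodable.encode (dec n)) le_rfl
    change chf T g f n = bif (univ (nu T g) (nu_surj T g) n &&
      inDec T g (dec n) (seg f (Encodable.encode (dec n)))) then 1 else 0
    have h2 := chf_eq_one T g f n
    rw [← h1] at h2
    rcases chf_zero_or_one T g f n with h | h
    · rw [h]
      have h3 : ¬ (univ (nu T g) (nu_surj T g) n = true ∧
          inDec T g (dec n) (seg f (Encodable.encode (dec n))) = true) := by
        rw [← h2, h]; omega
      rw [← Bool.and_eq_true, Bool.not_eq_true] at h3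
      rw [h3]
      rfl
    · rw [h]
      have h3 := h2.1 h
      rw [← Bool.and_eq_true] at h3
      rw [h3]
      rfl

/-! ### Recovering the path -/

/-- canonical code of `z_{(l, i)}` -/
noncomputable def zcode (l i : ℕ) : ℕ :=
  rep (nu T g) (nu_surj T g)
    (nu T g (Encodable.encode (([[Nat.pair l i]], [[]], 0) : Code)))

theorem valid_z (n : ℕ) : Valid T g (([[n]], [[]], 0) : Code) := by
  refine ⟨?_, ?_⟩
  · change xd T g [[]] ≠ 0
    rw [xd_one]; exact one_ne_zero
  · change BB T g 0 (xd T g [[n]] / xd T g [[]])
    rw [xd_one, div_one]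
    apply BB_of_nonneg
    have h1 : xd T g [[n]] = HahnSeries.single (vl T g [n] + vl T g [n]) (1 : ZMod 2) := by
      rw [xd_eq_sum]; simp
    rw [h1, HahnSeries.orderTop_single one_ne_zero]
    exact WithTop.coe_le_coe.2 (add_nonneg (vl_nonneg T g _) (vl_nonneg T g _))

theorem sem_z (n : ℕ) : sem T g (([[n]], [[]], 0) : Code) = zz T g n := by
  apply Subtype.ext
  rw [sem_of_valid T g _ (valid_z T g n)]
  change xd T g [[n]] / xd T g [[]] = _
  rw [xd_one, div_one, xd_eq_sum]
  simp [zz]

variable {T g} in
theorem chf_zcode (hT : TreeHyp T g) (f : ℕ → ℕ) (hf : f ∈ Paths T) (l i : ℕ) :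
    chf T g f (zcode T g l i) = 1 ↔ seg f l ∈ (lv T g l).take i := by
  have hS := isCut_cutOf hT f hf
  rw [chf_eq_chi T g f hS, chi_eq_one]
  unfold zcode
  rw [ν_rep (nu T g) (nu_surj T g)]
  have h1 : nu T g (Encodable.encode (([[Nat.pair l i]], [[]], 0) : Code)) =
      Ideal.Quotient.mk (IK T g) (zz T g (Nat.pair l i)) := by
    unfold nu
    rw [dec_encode, sem_z]
  rw [h1, mk_mem_iff T g _ (IK_le_idealOf T g _ hS)]
  have h2 : zz T g (Nat.pair l i) ∈ idealOf T g (cutOf T g f) hS ↔
      Nat.pair l i ∈ cutOf T g f := by
    have h3 := cutIdeal_idealOf T g _ hS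
    exact Set.ext_iff.1 h3 (Nat.pair l i)
  rw [h2]
  change _ ∧ seg f (Nat.pair l i).unpair.1 ∈ bas T g (Nat.pair l i) ↔ _
  rw [bas_pair, Nat.unpair_pair]
  simp only [univ_rep, true_and]

variable {T g} in
theorem path_reducible (hTc : Computable T) (hgc : Computable g) (hT : TreeHyp T g)
    (hP : Dom T g rt ut) (f : ℕ → ℕ) (hf : f ∈ Paths T) :
    TuringReducible (PFun.lift f) (PFun.lift (chf T g f)) := by
  have hcanon := computable_canon (nu T g) (nu_surj T g) (computable_eqC hTc hgc)
    (eqC_iff T g hP)
  have hz : Computable₂ (zcode T g) := by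
    have h1 : Primrec (fun p : ℕ × ℕ =>
        Encodable.encode (([[Nat.pair p.1 p.2]], [[]], 0) : Code)) := by
      refine Primrec.encode.comp ?_
      refine Primrec.pair ?_ (Primrec.const ([[]], 0))
      refine Primrec.list_cons.comp ?_ (Primrec.const [])
      exact Primrec.list_cons.comp (Primrec₂.natPair.comp Primrec.fst Primrec.snd)
        (Primrec.const [])
    exact hcanon.comp h1.to_comp
  have hlen : Computable (fun l : ℕ => (lv T g (l + 1)).length + 1) :=
    Computable.succ.comp (Computable.list_length.comp ((computable_lv hTc hgc).comp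
      Computable.succ))
  -- amount of oracle information
  set N : ℕ → ℕ := fun l => ((List.range ((lv T g (l + 1)).length + 1)).map
    (fun i => zcode T g (l + 1) i + 1)).sum with hN
  set cnt : ℕ → List ℕ → ℕ := fun l P => ((List.range ((lv T g (l + 1)).length + 1)).map
    (fun i => P.getD (zcode T g (l + 1) i) 0)).sum with hcnt
  apply turingReducible_of_prefix (chf T g f) f N
    (fun l P => ((lv T g (l + 1)).getD ((lv T g (l + 1)).length - cnt l P) []).getD l 0)
  · have h1 : Computable (fun l : ℕ => (List.range ((lv T g (l + 1)).length + 1)).map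
        (fun i => zcode T g (l + 1) i + 1)) :=
      computable_map (f := fun l : ℕ => List.range ((lv T g (l + 1)).length + 1))
        (g := fun l i => zcode T g (l + 1) i + 1) (computable_list_range.comp hlen)
        (Computable.succ.comp (hz.comp (Computable.succ.comp Computable.fst) Computable.snd))
    exact primrec_list_sum.to_comp.comp h1
  · have hgetD : Computable₂ (fun (l : List ℕ) (n : ℕ) => l.getD n 0) :=
      (Primrec.list_getD 0).to_comp
    have hgetD' : Computable₂ (fun (l : List (List ℕ)) (n : ℕ) => l.getD n []) :=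
      (Primrec.list_getD []).to_comp
    have hc : Computable (fun p : ℕ × List ℕ => cnt p.1 p.2) := by
      have h1 : Computable (fun p : ℕ × List ℕ =>
          (List.range ((lv T g (p.1 + 1)).length + 1)).map
          (fun i => p.2.getD (zcode T g (p.1 + 1) i) 0)) :=
        computable_map (f := fun p : ℕ × List ℕ => List.range ((lv T g (p.1 + 1)).length + 1))
          (g := fun p i => p.2.getD (zcode T g (p.1 + 1) i) 0)
          (computable_list_range.comp (hlen.comp Computable.fst))
          (hgetD.comp (Computable.snd.comp Computable.fst)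
            (hz.comp (Computable.succ.comp (Computable.fst.comp Computable.fst)) Computable.snd))
      exact primrec_list_sum.to_comp.comp h1
    have hlv : Computable (fun p : ℕ × List ℕ => lv T g (p.1 + 1)) :=
      (computable_lv hTc hgc).comp (Computable.succ.comp Computable.fst)
    have hidx : Computable (fun p : ℕ × List ℕ => (lv T g (p.1 + 1)).length - cnt p.1 p.2) :=
      (Primrec.nat_sub.to_comp).comp (Computable.list_length.comp hlv) hc
    exact hgetD.comp (hgetD'.comp hlv hidx) Computable.fst
  · intro l
    -- position of the node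
    have hmem : seg f (l + 1) ∈ lv T g (l + 1) := by
      rw [mem_lv hT]
      exact ⟨hf (l + 1), seg_length f (l + 1)⟩
    obtain ⟨j, hj, hj2⟩ := List.getElem_of_mem hmem
    have hnd := nodup_lv (T := T) (g := g) (l + 1)
    have hiff : ∀ i, seg f (l + 1) ∈ (lv T g (l + 1)).take i ↔ j < i := by
      intro i
      rw [← hj2]
      constructor
      · intro h1
        obtain ⟨c, hc, hc2⟩ := List.getElem_of_mem h1
        rw [List.getElem_take] at hc2
        have := (hnd.getElem_inj_iff).1 hc2
        rw [List.length_take] at hc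
        omega
      · intro h1
        rw [List.mem_take_iff_getElem]
        exact ⟨j, by omega, rfl⟩
    have hval : ∀ i ∈ List.range ((lv T g (l + 1)).length + 1),
        ((List.range (N l)).map (chf T g f)).getD (zcode T g (l + 1) i) 0 =
          if j < i then 1 else 0 := by
      intro i hi
      have hlt : zcode T g (l + 1) i < N l := by
        rw [hN]
        have h1 : zcode T g (l + 1) i + 1 ∈ (List.range ((lv T g (l + 1)).length + 1)).map
            (fun i => zcode T g (l + 1) i + 1) := List.mem_map.2 ⟨i, hi, rfl⟩
        have h2 := List.single_le_sum (fun x _ => Nat.zero_le x) _ h1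
        exact Nat.lt_of_succ_le h2
      have h3 : ((List.range (N l)).map (chf T g f)).getD (zcode T g (l + 1) i) 0 =
          chf T g f (zcode T g (l + 1) i) := by
        rw [List.getD_eq_getElem _ _ (by simpa using hlt)]
        simp
      rw [h3]
      have h4 := chf_zcode hT f hf (l + 1) i
      rw [hiff] at h4
      split_ifs with h5
      · exact h4.2 h5
      · rcases chf_zero_or_one T g f (zcode T g (l + 1) i) with h6 | h6
        · exact h6
        · exact absurd (h4.1 h6) h5
    have hsum : ∀ n, ((List.range n).map (fun i => if j < i then 1 else 0)).sum = n - (j + 1) := by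
      intro n
      induction n with
      | zero => simp
      | succ n ih =>
        rw [List.range_succ, List.map_append, List.sum_append, ih]
        simp only [List.map_cons, List.map_nil, List.sum_cons, List.sum_nil]
        split_ifs <;> omega
    have hc : cnt l ((List.range (N l)).map (chf T g f)) = (lv T g (l + 1)).length - j := by
      rw [hcnt]
      simp only []
      rw [List.map_congr_left hval, hsum]
      omega
    simp only [hc]
    have h5 : (lv T g (l + 1)).length - ((lv T g (l + 1)).length - j) = j := by omega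
    rw [h5, List.getD_eq_getElem _ _ hj, hj2]
    rw [seg_succ, List.getD_eq_getElem?_getD, List.getElem?_append_right (by rw [seg_length]),
      seg_length]
    simp

end

end Pool.Agent.LibFed070
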