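import Pool.Agent.LibFed070.Ring

set_option autoImplicit false

/-! Prime ideals of `VK` containing `IK` and cuts. -/

namespace Pool.Agent.LibFed070

open Filter

section

variable (T : List ℕ → Bool) (g : List ℕ → ℕ)

theorem single_isK (n : ℕ) :
    IsK T g (HahnSeries.single (vl T g [n] + vl T g [n]) (1 : ZMod 2)) := by
  refine ⟨[[n]], [[]], ?_⟩
  rw [xd_one, div_one]
  unfold xd dbl
  rw [List.map_cons, List.map_nil, xf_singleton, vl_append]

/-- the element `z_n` -/
noncomputable def zz (n : ℕ) : VK T g :=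
  ⟨HahnSeries.single (vl T g [n] + vl T g [n]) (1 : ZMod 2), single_isK T g n, 0, by
    apply BB_of_nonneg
    rw [HahnSeries.orderTop_single one_ne_zero]
    exact WithTop.coe_le_coe.2 (add_nonneg (vl_nonneg T g _) (vl_nonneg T g _))⟩

theorem orderTop_zz (n : ℕ) :
    (zz T g n : Fld).orderTop = ((vl T g [n] + vl T g [n] : Gam) : WithTop Gam) :=
  HahnSeries.orderTop_single one_ne_zero

/-- product of `z_n` -/
noncomputable def zprod (L : List ℕ) : VK T g := (L.map (zz T g)).prod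

theorem orderTop_zprod (L : List ℕ) :
    (zprod T g L : Fld).orderTop = ((vl T g L + vl T g L : Gam) : WithTop Gam) := by
  induction L with
  | nil =>
    rw [vl_nil, add_zero]
    exact orderTop_one'
  | cons n L ih =>
    have h1 : zprod T g (n :: L) = zz T g n * zprod T g L := by simp [zprod]
    have h2 : vl T g (n :: L) = vl T g [n] + vl T g L := by
      rw [← vl_append]; rfl
    rw [h1, Subring.coe_mul, HahnSeries.orderTop_mul, ih, orderTop_zz, h2, ← WithTop.coe_add]
    congr 1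
    abel

theorem mem_of_zprod_mem (𝔮 : Ideal (VK T g)) (h𝔮 : 𝔮.IsPrime) (L : List ℕ)
    (h : zprod T g L ∈ 𝔮) : ∃ n ∈ L, zz T g n ∈ 𝔮 := by
  induction L with
  | nil =>
    exfalso
    exact h𝔮.ne_top ((Ideal.eq_top_iff_one _).2 h)
  | cons n L ih =>
    have h1 : zprod T g (n :: L) = zz T g n * zprod T g L := by simp [zprod]
    rw [h1] at h
    rcases h𝔮.mem_or_mem h with h | h
    · exact ⟨n, by simp, h⟩
    · obtain ⟨m, hm, hm2⟩ := ih h
      exact ⟨m, by simp [hm], hm2⟩

theorem dvd_of_le (x y : VK T g) (hy : (y : Fld) ≠ 0)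
    (h : (y : Fld).orderTop ≤ (x : Fld).orderTop) : ∃ w : VK T g, x = y * w := by
  have hw : (y : Fld) * ((x : Fld) / (y : Fld)) = x := mul_div_cancel₀ _ hy
  have h1 : 0 ≤ ((x : Fld) / (y : Fld)).orderTop := by
    rw [← hw, HahnSeries.orderTop_mul] at h
    have hfin : (y : Fld).orderTop ≠ ⊤ := HahnSeries.orderTop_ne_top.2 hy
    have h2 : (y : Fld).orderTop + 0 ≤ (y : Fld).orderTop + ((x : Fld) / (y : Fld)).orderTop := by
      rw [add_zero]; exact h
    exact (WithTop.add_le_add_iff_left hfin).1 h2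
  refine ⟨⟨(x : Fld) / (y : Fld), (x.2.1).div T g (y.2.1), 0, BB_of_nonneg T g h1⟩, ?_⟩
  apply Subtype.ext
  exact hw.symm

theorem mem_of_le (𝔮 : Ideal (VK T g)) (x y : VK T g) (hy : y ∈ 𝔮)
    (h : (y : Fld).orderTop ≤ (x : Fld).orderTop) : x ∈ 𝔮 := by
  by_cases h0 : (y : Fld) = 0
  · rw [h0, HahnSeries.orderTop_zero, top_le_iff, HahnSeries.orderTop_eq_top] at h
    have : x = 0 := Subtype.ext h
    rw [this]
    exact 𝔮.zero_mem
  · obtain ⟨w, rfl⟩ := dvd_of_le T g x y h0 h
    exact 𝔮.mul_mem_right _ hy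

theorem zz_back (𝔮 : Ideal (VK T g)) (h𝔮 : 𝔮.IsPrime) (x : VK T g) (n : ℕ) (hn : zz T g n ∈ 𝔮)
    (h : ((vl T g [n] : Gam) : WithTop Gam) ≤ (x : Fld).orderTop) : x ∈ 𝔮 := by
  have h1 : x * x ∈ 𝔮 := by
    apply mem_of_le T g 𝔮 _ _ hn
    rw [orderTop_zz, Subring.coe_mul, HahnSeries.orderTop_mul, WithTop.coe_add]
    exact add_le_add h h
  rcases h𝔮.mem_or_mem h1 with h | h <;> exact h

theorem vl_filter (p : ℕ → Bool) (A : List ℕ) :
    vl T g A = vl T g (A.filter p) + vl T g (A.filter (fun n => !p n)) := by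
  rw [← vl_append]
  unfold vl
  congr 1
  funext s
  congr 1
  rw [val_append]
  unfold val
  induction A with
  | nil => simp
  | cons a A ih =>
    rw [List.map_cons, List.sum_cons, ih, List.filter_cons, List.filter_cons]
    by_cases h : p a = true
    · simp [h]; ring
    · simp only [Bool.not_eq_true] at h
      simp [h]; ring

theorem exists_min (L : List ℕ) (hL : L ≠ []) :
    ∃ n ∈ L, ∀ m ∈ L, vl T g [n] ≤ vl T g [m] := by
  induction L with
  | nil => exact absurd rfl hL
  | cons a L ih =>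
    by_cases h0 : L = []
    · subst h0
      exact ⟨a, by simp, by simp⟩
    · obtain ⟨n, hn, hmin⟩ := ih h0
      rcases le_total (vl T g [a]) (vl T g [n]) with h | h
      · refine ⟨a, by simp, fun m hm => ?_⟩
        rcases List.mem_cons.1 hm with rfl | hm
        · exact le_rfl
        · exact h.trans (hmin m hm)
      · refine ⟨n, by simp [hn], fun m hm => ?_⟩
        rcases List.mem_cons.1 hm with rfl | hm
        · exact h
        · exact hmin m hm

/-- The main classification step. -/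
theorem cls_frac (𝔮 : Ideal (VK T g)) (h𝔮 : 𝔮.IsPrime) (x : VK T g) (f h : List (List ℕ))
    (hx : (x : Fld) = xd T g f / xd T g h) (hne : (x : Fld) ≠ 0) (hmem : x ∈ 𝔮) :
    ∃ n, (∃ A ∈ f ++ h, n ∈ A) ∧ zz T g n ∈ 𝔮 ∧
      ((vl T g [n] : Gam) : WithTop Gam) ≤ (x : Fld).orderTop := by
  classical
  rw [hx] at hne
  obtain ⟨A, hA, B, hB, a, ha, hab⟩ := orderTop_frac T g f h hne
  rw [← hx] at ha hne
  set p : ℕ → Bool := fun n => decide (zz T g n ∈ 𝔮) with hp
  set Ah := A.filter p with hAh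
  set Al := A.filter (fun n => !p n) with hAl
  set Bh := B.filter p with hBh
  set Bl := B.filter (fun n => !p n) with hBl
  have hAsplit : vl T g A = vl T g Ah + vl T g Al := vl_filter T g p A
  have hBsplit : vl T g B = vl T g Bh + vl T g Bl := vl_filter T g p B
  have hlow : ∀ L : List ℕ, zprod T g (L.filter (fun n => !p n)) ∉ 𝔮 := by
    intro L hL
    obtain ⟨n, hn, hn2⟩ := mem_of_zprod_mem T g 𝔮 h𝔮 _ hL
    rw [List.mem_filter] at hn
    have := hn.2
    simp [hp] at this
    exact this hn2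
  by_cases hle : vl T g Ah ≤ vl T g Bh
  · -- then `x` divides a product of low elements
    exfalso
    apply hlow A
    apply mem_of_le T g 𝔮 _ _ hmem
    rw [orderTop_zprod, ha, WithTop.coe_le_coe]
    have h1 : a + (vl T g Bh + vl T g Bl + (vl T g Bh + vl T g Bl)) =
        vl T g Ah + vl T g Al + (vl T g Ah + vl T g Al) := by
      rw [← hAsplit, ← hBsplit]; exact hab
    have h2 := vl_nonneg T g Bl
    have h3 : a + (vl T g Bh + vl T g Bh) ≤ vl T g Al + vl T g Al + (vl T g Bh + vl T g Bh) := by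
      calc a + (vl T g Bh + vl T g Bh)
          ≤ a + (vl T g Bh + vl T g Bh) + (vl T g Bl + vl T g Bl) :=
            le_add_of_nonneg_right (add_nonneg h2 h2)
        _ = a + (vl T g Bh + vl T g Bl + (vl T g Bh + vl T g Bl)) := by abel
        _ = vl T g Ah + vl T g Al + (vl T g Ah + vl T g Al) := h1
        _ = vl T g Al + vl T g Al + (vl T g Ah + vl T g Ah) := by abel
        _ ≤ vl T g Al + vl T g Al + (vl T g Bh + vl T g Bh) :=
            add_le_add le_rfl (add_le_add hle hle)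
    exact le_of_add_le_add_right h3
  · have hne' : Ah ++ Bh ≠ [] := by
      intro h0
      rw [List.append_eq_nil_iff] at h0
      rw [h0.1, h0.2] at hle
      exact hle le_rfl
    obtain ⟨n, hn, hmin⟩ := exists_min T g (Ah ++ Bh) hne'
    have hdiv := (div_lemma T g Ah Bh n hmin).resolve_left hle
    have hn' : zz T g n ∈ 𝔮 ∧ (n ∈ A ∨ n ∈ B) := by
      rw [List.mem_append, hAh, hBh, List.mem_filter, List.mem_filter] at hn
      rcases hn with ⟨h1, h2⟩ | ⟨h1, h2⟩
      · exact ⟨by simpa [hp] using h2, Or.inl h1⟩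
      · exact ⟨by simpa [hp] using h2, Or.inr h1⟩
    refine ⟨n, ?_, hn'.1, ?_⟩
    · rcases hn'.2 with h1 | h1
      · exact ⟨A, List.mem_append_left _ hA, h1⟩
      · exact ⟨B, List.mem_append_right _ hB, h1⟩
    · rw [ha, WithTop.coe_le_coe]
      by_cases hsm : vl T g Bl + vl T g Bl ≤ vl T g [n]
      · have h1 : a + (vl T g Bh + vl T g Bl + (vl T g Bh + vl T g Bl)) =
            vl T g Ah + vl T g Al + (vl T g Ah + vl T g Al) := by
          rw [← hAsplit, ← hBsplit]; exact hab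
        have h2 := vl_nonneg T g Al
        have h3 : vl T g [n] + (vl T g Bh + vl T g Bl + (vl T g Bh + vl T g Bl)) ≤
            a + (vl T g Bh + vl T g Bl + (vl T g Bh + vl T g Bl)) := by
          rw [h1]
          calc vl T g [n] + (vl T g Bh + vl T g Bl + (vl T g Bh + vl T g Bl))
              = (vl T g Bh + vl T g Bh + vl T g [n]) + (vl T g Bl + vl T g Bl) := by abel
            _ ≤ (vl T g Bh + vl T g Bh + vl T g [n]) + vl T g [n] := add_le_add le_rfl hsm
            _ = (vl T g Bh + vl T g [n]) + (vl T g Bh + vl T g [n]) := by abel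
            _ ≤ vl T g Ah + vl T g Ah := add_le_add hdiv hdiv
            _ ≤ vl T g Ah + vl T g Ah + (vl T g Al + vl T g Al) :=
                le_add_of_nonneg_right (add_nonneg h2 h2)
            _ = vl T g Ah + vl T g Al + (vl T g Ah + vl T g Al) := by abel
        exact le_of_add_le_add_right h3
      · exfalso
        rw [not_le] at hsm
        have h1 : zprod T g Bl * zprod T g Bl ∈ 𝔮 := by
          apply mem_of_le T g 𝔮 _ _ hn'.1
          rw [orderTop_zz, Subring.coe_mul, HahnSeries.orderTop_mul, orderTop_zprod,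
            ← WithTop.coe_add, WithTop.coe_le_coe]
          exact add_le_add hsm.le hsm.le
        rcases h𝔮.mem_or_mem h1 with h | h <;> exact hlow B h

/-- comparison of values from growth functions -/
theorem nsmul_vl (K : ℕ) (A : List ℕ) :
    K • vl T g A = ((fun s => (K : ℤ) * (val (E T g) A s : ℤ) : ℕ → ℤ) : Gam) := by
  have h1 : (fun s => (K : ℤ) * (val (E T g) A s : ℤ)) =
      K • (fun s => (val (E T g) A s : ℤ)) := by
    funext s
    simp
  rw [h1]
  rfl

theorem nsmul_lt_of_dom {n m : ℕ} (h : Dom T g n m) (K : ℕ) :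
    K • vl T g [m] < vl T g [n] := by
  rw [nsmul_vl]
  unfold vl
  rw [Germ.coe_lt]
  obtain ⟨s1, h1⟩ := h K
  refine (eventually_ge s1).mono (fun s hs => ?_)
  have h2 := h1 s hs
  simp only [val_singleton]
  push_cast
  have h3 : (K : ℤ) < 3 ^ K := by exact_mod_cast Nat.lt_pow_self (n := K) (by norm_num : 1 < 3)
  calc (K : ℤ) * 3 ^ E T g m s < 3 ^ K * 3 ^ E T g m s := by
        apply mul_lt_mul_of_pos_right h3 (by positivity)
    _ = 3 ^ (E T g m s + K) := by rw [pow_add]; ring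
    _ ≤ 3 ^ (E T g n s) := pow_le_pow_right₀ (by norm_num) h2

theorem vl_le_nsmul_of_const {n m a b s1 : ℕ}
    (h : ∀ s, s1 ≤ s → E T g n s + a = E T g m s + b) :
    vl T g [n] ≤ (3 ^ b) • vl T g [m] := by
  rw [nsmul_vl]
  unfold vl
  rw [Germ.coe_le]
  refine (eventually_ge s1).mono (fun s hs => ?_)
  have h2 := h s hs
  simp only [val_singleton]
  push_cast
  rw [← pow_add]
  exact pow_le_pow_right₀ (by norm_num) (by omega)

theorem orderTop_zz_pow (n K : ℕ) :
    ((zz T g n ^ K : VK T g) : Fld).orderTop =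
      ((K • (vl T g [n] + vl T g [n]) : Gam) : WithTop Gam) := by
  induction K with
  | zero =>
    rw [pow_zero, zero_nsmul]
    exact orderTop_one'
  | succ K ih =>
    rw [pow_succ, Subring.coe_mul, HahnSeries.orderTop_mul, ih, orderTop_zz, ← WithTop.coe_add,
      succ_nsmul]

theorem zz_rt_mem_IK : zz T g rt ∈ IK T g := by
  rw [mem_IK]
  refine ⟨0, ?_⟩
  unfold SS
  rw [orderTop_zz, zero_nsmul, WithTop.coe_zero, add_zero, WithTop.coe_le_coe]
  exact le_add_of_nonneg_right (vl_nonneg T g _)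

theorem vl_ut_pos : 0 < vl T g [ut] := by
  have h := nsmul_tau T g 1
  rw [one_nsmul] at h
  unfold tau at h
  rw [h]
  change ((fun _ => (0 : ℤ) : ℕ → ℤ) : Gam) < _
  rw [Germ.coe_lt]
  exact Eventually.of_forall (fun _ => by simp)

theorem zz_ut_not_mem (𝔮 : Ideal (VK T g)) (h𝔮 : 𝔮.IsPrime) : zz T g ut ∉ 𝔮 := by
  intro h
  apply h𝔮.ne_top
  -- `t` is a unit
  have hne : (zz T g ut : Fld) ≠ 0 := HahnSeries.single_ne_zero one_ne_zero
  have hinv : ((zz T g ut : Fld)⁻¹) ∈ VK T g := by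
    rw [mem_VK]
    refine ⟨?_, 2, ?_⟩
    · have := (isK_one T g).div T g (zz T g ut).2.1
      rwa [one_div] at this
    · unfold BB
      have h1 : ((zz T g ut : Fld) * (zz T g ut : Fld)⁻¹).orderTop = 0 := by
        rw [mul_inv_cancel₀ hne]; exact orderTop_one'
      rw [HahnSeries.orderTop_mul, orderTop_zz] at h1
      have h2 : (2 • tau T g : Gam) = vl T g [ut] + vl T g [ut] := by
        rw [two_nsmul]; rfl
      rw [h2, add_comm]
      exact h1.ge
  have h1 : (⟨_, hinv⟩ : VK T g) * zz T g ut = 1 := by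
    apply Subtype.ext
    exact inv_mul_cancel₀ hne
  rw [Ideal.eq_top_iff_one, ← h1]
  exact 𝔮.mul_mem_left _ h

/-- the cut of a prime ideal -/
def cutIdeal (𝔮 : Ideal (VK T g)) : Set ℕ := {n | zz T g n ∈ 𝔮}

theorem isCut_cutIdeal (𝔮 : Ideal (VK T g)) (h𝔮 : 𝔮.IsPrime) (hI : IK T g ≤ 𝔮) :
    IsCut T g (cutIdeal T g 𝔮) where
  rt_mem := hI (zz_rt_mem_IK T g)
  ut_not_mem := zz_ut_not_mem T g 𝔮 h𝔮
  dom := by
    intro n hn m hm
    change zz T g n ∈ 𝔮 at hn
    change ¬ (zz T g m ∈ 𝔮) at hm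
    rcases tri T g n m with ⟨a, b, s1, h⟩ | h | h
    · exfalso
      apply hm
      have h1 := vl_le_nsmul_of_const T g h
      have h2 : zz T g m ^ (3 ^ b) ∈ 𝔮 := by
        apply mem_of_le T g 𝔮 _ _ hn
        rw [orderTop_zz_pow, orderTop_zz, WithTop.coe_le_coe, nsmul_add]
        exact add_le_add h1 h1
      exact h𝔮.mem_of_pow_mem _ h2
    · exact h
    · exfalso
      apply hm
      apply mem_of_le T g 𝔮 _ _ hn
      rw [orderTop_zz, orderTop_zz, WithTop.coe_le_coe]
      have h1 := nsmul_lt_of_dom T g h 1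
      rw [one_nsmul] at h1
      exact add_le_add h1.le h1.le

/-! ### The prime ideal of a cut -/

/-- membership predicate -/
def InP (S : Set ℕ) (x : Fld) : Prop :=
  ∃ n ∈ S, ∃ K : ℕ, ((vl T g [n] : Gam) : WithTop Gam) ≤ (x ^ K).orderTop

theorem orderTop_pow_mono {x y : Fld} (h : x.orderTop ≤ y.orderTop) (K : ℕ) :
    (x ^ K).orderTop ≤ (y ^ K).orderTop := by
  induction K with
  | zero => rw [pow_zero, pow_zero]
  | succ K ih =>
    rw [pow_succ, pow_succ, HahnSeries.orderTop_mul, HahnSeries.orderTop_mul]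
    exact add_le_add ih h

theorem dom_ut {S : Set ℕ} (hS : IsCut T g S) {n : ℕ} (hn : n ∈ S) : Dom T g n ut :=
  hS.dom n hn ut hS.ut_not_mem

/-- small constants are absorbed -/
theorem absorb {S : Set ℕ} (hS : IsCut T g S) {n : ℕ} (hn : n ∈ S) (C : ℕ) :
    C • tau T g ≤ vl T g [n] := (nsmul_lt_of_dom T g (dom_ut T g hS hn) C).le

theorem BB_pow {x : Fld} {C : ℕ} (h : BB T g C x) (K : ℕ) : BB T g (K * C) (x ^ K) := by
  induction K with
  | zero => rw [pow_zero, zero_mul]; exact BB_one T g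
  | succ K ih =>
    rw [pow_succ, Nat.add_mul, one_mul]
    exact ih.mul T g h

/-- The prime ideal of a cut. -/
noncomputable def idealOf (S : Set ℕ) (hS : IsCut T g S) : Ideal (VK T g) where
  carrier := {x | InP T g S (x : Fld)}
  add_mem' := by
    rintro x y ⟨n, hn, K, hK⟩ ⟨m, hm, L, hL⟩
    have h := HahnSeries.min_orderTop_le_orderTop_add (x := (x : Fld)) (y := (y : Fld))
    rcases le_total (x : Fld).orderTop (y : Fld).orderTop with h1 | h1
    · rw [min_eq_left h1] at h
      exact ⟨n, hn, K, hK.trans (orderTop_pow_mono h K)⟩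
    · rw [min_eq_right h1] at h
      exact ⟨m, hm, L, hL.trans (orderTop_pow_mono h L)⟩
  zero_mem' := by
    refine ⟨rt, hS.rt_mem, 1, ?_⟩
    rw [pow_one]
    change _ ≤ (0 : Fld).orderTop
    rw [HahnSeries.orderTop_zero]
    exact le_top
  smul_mem' := by
    rintro c x ⟨n, hn, K, hK⟩
    obtain ⟨C, hC⟩ := c.2.2
    refine ⟨n, hn, 2 * K, ?_⟩
    have h1 := BB_pow T g hC (2 * K)
    unfold BB at h1
    have h2 := absorb T g hS hn (2 * K * C)
    change _ ≤ (((c : Fld) * (x : Fld)) ^ (2 * K)).orderTop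
    rw [mul_pow, HahnSeries.orderTop_mul]
    have h3 : ((x : Fld) ^ (2 * K)).orderTop =
        ((x : Fld) ^ K).orderTop + ((x : Fld) ^ K).orderTop := by
      rw [← HahnSeries.orderTop_mul, ← pow_add, two_mul]
    rw [h3]
    have hfin : (((2 * K * C) • tau T g : Gam) : WithTop Gam) ≠ ⊤ := WithTop.coe_ne_top
    apply (WithTop.add_le_add_iff_right hfin).1
    calc ((vl T g [n] : Gam) : WithTop Gam) + (((2 * K * C) • tau T g : Gam) : WithTop Gam)
        ≤ ((vl T g [n] : Gam) : WithTop Gam) + ((vl T g [n] : Gam) : WithTop Gam) :=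
          add_le_add le_rfl (WithTop.coe_le_coe.2 h2)
      _ ≤ ((x : Fld) ^ K).orderTop + ((x : Fld) ^ K).orderTop := add_le_add hK hK
      _ = 0 + (((x : Fld) ^ K).orderTop + ((x : Fld) ^ K).orderTop) := (zero_add _).symm
      _ ≤ (((c : Fld) ^ (2 * K)).orderTop + (((2 * K * C) • tau T g : Gam) : WithTop Gam)) +
          (((x : Fld) ^ K).orderTop + ((x : Fld) ^ K).orderTop) := add_le_add h1 le_rfl
      _ = ((c : Fld) ^ (2 * K)).orderTop + (((x : Fld) ^ K).orderTop + ((x : Fld) ^ K).orderTop) +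
          (((2 * K * C) • tau T g : Gam) : WithTop Gam) := by abel

theorem mem_idealOf (S : Set ℕ) (hS : IsCut T g S) (x : VK T g) :
    x ∈ idealOf T g S hS ↔ InP T g S (x : Fld) := Iff.rfl

theorem IK_le_idealOf (S : Set ℕ) (hS : IsCut T g S) : IK T g ≤ idealOf T g S hS := by
  intro x hx
  rw [mem_IK] at hx
  obtain ⟨C, hC⟩ := hx
  rw [mem_idealOf]
  refine ⟨rt, hS.rt_mem, 2, ?_⟩
  unfold SS at hC
  have h2 := absorb T g hS hS.rt_mem (C + C)
  rw [pow_two, HahnSeries.orderTop_mul]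
  have hfin : (((C + C) • tau T g : Gam) : WithTop Gam) ≠ ⊤ := WithTop.coe_ne_top
  apply (WithTop.add_le_add_iff_right hfin).1
  calc ((vl T g [rt] : Gam) : WithTop Gam) + (((C + C) • tau T g : Gam) : WithTop Gam)
      ≤ ((om T g : Gam) : WithTop Gam) + ((om T g : Gam) : WithTop Gam) :=
        add_le_add le_rfl (WithTop.coe_le_coe.2 h2)
    _ ≤ ((x : Fld).orderTop + ((C • tau T g : Gam) : WithTop Gam)) +
        ((x : Fld).orderTop + ((C • tau T g : Gam) : WithTop Gam)) := add_le_add hC hC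
    _ = (x : Fld).orderTop + (x : Fld).orderTop + (((C + C) • tau T g : Gam) : WithTop Gam) := by
        rw [add_nsmul, WithTop.coe_add]; abel

theorem idealOf_isPrime (S : Set ℕ) (hS : IsCut T g S) : (idealOf T g S hS).IsPrime := by
  constructor
  · intro htop
    have h1 : (1 : VK T g) ∈ idealOf T g S hS := by rw [htop]; trivial
    rw [mem_idealOf] at h1
    obtain ⟨n, hn, K, hK⟩ := h1
    have h2 : ((1 : VK T g) : Fld) ^ K = 1 := one_pow K
    rw [h2, orderTop_one'] at hK
    have h3 : vl T g [n] ≤ 0 := by exact_mod_cast hK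
    have h4 := nsmul_lt_of_dom T g (dom_ut T g hS hn) 1
    rw [one_nsmul] at h4
    exact absurd (h4.trans_le h3) (not_lt.2 (vl_nonneg T g _))
  · intro x y hxy
    rw [mem_idealOf] at hxy
    obtain ⟨n, hn, K, hK⟩ := hxy
    rw [Subring.coe_mul, mul_pow, HahnSeries.orderTop_mul] at hK
    rcases le_total (x : Fld).orderTop (y : Fld).orderTop with h | h
    · right
      rw [mem_idealOf]
      refine ⟨n, hn, K + K, hK.trans ?_⟩
      rw [pow_add, HahnSeries.orderTop_mul]
      exact add_le_add (orderTop_pow_mono h K) le_rfl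
    · left
      rw [mem_idealOf]
      refine ⟨n, hn, K + K, hK.trans ?_⟩
      rw [pow_add, HahnSeries.orderTop_mul]
      exact add_le_add le_rfl (orderTop_pow_mono h K)

theorem cutIdeal_idealOf (S : Set ℕ) (hS : IsCut T g S) : cutIdeal T g (idealOf T g S hS) = S := by
  ext m
  constructor
  · intro h
    change InP T g S (zz T g m : Fld) at h
    by_contra hm
    obtain ⟨n, hn, K, hK⟩ := h
    have h1 := orderTop_zz_pow T g m K
    rw [SubmonoidClass.coe_pow] at h1
    rw [h1, WithTop.coe_le_coe] at hK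
    have h2 := nsmul_lt_of_dom T g (hS.dom n hn m hm) (K + K)
    rw [nsmul_add, ← add_nsmul] at hK
    exact absurd hK (not_le.2 h2)
  · intro h
    refine ⟨m, h, 1, ?_⟩
    rw [pow_one, orderTop_zz, WithTop.coe_le_coe]
    exact le_add_of_nonneg_right (vl_nonneg T g _)

/-- A prime ideal containing `IK` is the ideal of its cut. -/
theorem eq_idealOf (𝔮 : Ideal (VK T g)) (h𝔮 : 𝔮.IsPrime) (hI : IK T g ≤ 𝔮) (S : Set ℕ)
    (hS : IsCut T g S) (h : cutIdeal T g 𝔮 = S) : 𝔮 = idealOf T g S hS := by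
  have hsame : ∀ n, zz T g n ∈ 𝔮 ↔ zz T g n ∈ idealOf T g S hS := by
    intro n
    have h1 := cutIdeal_idealOf T g S hS
    rw [← h1] at h
    exact Set.ext_iff.1 h n
  have key : ∀ 𝔮₁ 𝔮₂ : Ideal (VK T g), 𝔮₁.IsPrime → 𝔮₂.IsPrime → IK T g ≤ 𝔮₂ →
      (∀ n, zz T g n ∈ 𝔮₁ → zz T g n ∈ 𝔮₂) → 𝔮₁ ≤ 𝔮₂ := by
    intro 𝔮₁ 𝔮₂ h₁ h₂ _ himp x hx
    by_cases h0 : (x : Fld) = 0
    · have : x = 0 := Subtype.ext h0
      rw [this]; exact 𝔮₂.zero_mem
    · obtain ⟨f, k, hfk⟩ := x.2.1
      obtain ⟨n, _, hn, hle⟩ := cls_frac T g 𝔮₁ h₁ x f k hfk h0 hx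
      exact zz_back T g 𝔮₂ h₂ x n (himp n hn) hle
  apply le_antisymm
  · exact key _ _ h𝔮 (idealOf_isPrime T g S hS) (IK_le_idealOf T g S hS) (fun n => (hsame n).1)
  · exact key _ _ (idealOf_isPrime T g S hS) h𝔮 hI (fun n => (hsame n).2)

end

end Pool.Agent.LibFed070
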