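import Pool.Agent.LibFed070.Semantic

set_option autoImplicit false

/-! The valuation ring `VK`, the ideal `IK` and the prime ideals containing it. -/

namespace Pool.Agent.LibFed070

open Filter

section

variable (T : List ℕ → Bool) (g : List ℕ → ℕ)

/-- double every monomial -/
def dbl (f : List (List ℕ)) : List (List ℕ) := f.map (fun m => m ++ m)

/-- series of the doubled list -/
noncomputable def xd (f : List (List ℕ)) : Fld := xf T g (dbl f)

theorem xd_nil : xd T g [] = 0 := rfl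

theorem vl_nilnil : HahnSeries.single (vl T g []) (1 : ZMod 2) = (1 : Fld) := by
  rw [vl_nil]; rfl

theorem xd_one : xd T g [[]] = 1 := by
  unfold xd dbl
  simp only [List.map_cons, List.map_nil, List.append_nil]
  rw [xf_singleton, vl_nilnil]

theorem xd_append (f h : List (List ℕ)) : xd T g (f ++ h) = xd T g f + xd T g h := by
  unfold xd dbl
  rw [List.map_append, xf_append]

theorem xd_eq_sum (f : List (List ℕ)) : xd T g f =
    (f.map (fun m => HahnSeries.single (vl T g m + vl T g m) (1 : ZMod 2))).sum := by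
  unfold xd dbl xf
  rw [List.map_map]
  congr 1
  apply List.map_congr_left
  intro m _
  simp [vl_append]

theorem xd_pmul (f h : List (List ℕ)) : xd T g (pmul f h) = xd T g f * xd T g h := by
  induction f with
  | nil => simp [pmul, xd_nil]
  | cons a f ih =>
    have e1 : pmul (a :: f) h = h.map (fun m' => a ++ m') ++ pmul f h := by simp [pmul]
    have e2 : xd T g (a :: f) =
        HahnSeries.single (vl T g a + vl T g a) (1 : ZMod 2) + xd T g f := by
      rw [xd_eq_sum, xd_eq_sum, List.map_cons, List.sum_cons]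
    have e3 : xd T g (h.map (fun m' => a ++ m')) =
        HahnSeries.single (vl T g a + vl T g a) (1 : ZMod 2) * xd T g h := by
      clear ih e1 e2
      induction h with
      | nil => simp [xd_nil]
      | cons b h ih =>
        rw [List.map_cons]
        have e4 : ∀ (c : List ℕ) (l : List (List ℕ)), xd T g (c :: l) =
            HahnSeries.single (vl T g c + vl T g c) (1 : ZMod 2) + xd T g l := by
          intro c l
          rw [xd_eq_sum, xd_eq_sum, List.map_cons, List.sum_cons]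
        rw [e4, e4, ih, mul_add, HahnSeries.single_mul_single, vl_append, mul_one]
        congr 3
        abel
    rw [e1, xd_append, ih, e2, e3, add_mul]

/-- elements of the small field -/
def IsK (x : Fld) : Prop := ∃ f h, x = xd T g f / xd T g h

theorem isK_zero : IsK T g 0 := ⟨[], [], by simp [xd_nil]⟩

theorem isK_one : IsK T g 1 := ⟨[[]], [[]], by rw [xd_one, div_one]⟩

theorem IsK.add {x y : Fld} (hx : IsK T g x) (hy : IsK T g y) : IsK T g (x + y) := by
  obtain ⟨f, h, rfl⟩ := hx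
  obtain ⟨f', h', rfl⟩ := hy
  by_cases h0 : xd T g h = 0
  · rw [h0, div_zero, zero_add]; exact ⟨_, _, rfl⟩
  by_cases h0' : xd T g h' = 0
  · rw [h0', div_zero, add_zero]; exact ⟨_, _, rfl⟩
  refine ⟨pmul f h' ++ pmul f' h, pmul h h', ?_⟩
  rw [xd_append, xd_pmul, xd_pmul, xd_pmul, div_add_div _ _ h0 h0']
  congr 1
  ring

theorem IsK.mul {x y : Fld} (hx : IsK T g x) (hy : IsK T g y) : IsK T g (x * y) := by
  obtain ⟨f, h, rfl⟩ := hx
  obtain ⟨f', h', rfl⟩ := hy
  refine ⟨pmul f f', pmul h h', ?_⟩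
  rw [xd_pmul, xd_pmul, div_mul_div_comm]

theorem neg_eq_self (x : Fld) : -x = x := by
  ext γ
  rw [HahnSeries.coeff_neg]
  exact ZMod.neg_eq_self_mod_two _

theorem IsK.neg {x : Fld} (hx : IsK T g x) : IsK T g (-x) := by rwa [neg_eq_self]

theorem IsK.div {x y : Fld} (hx : IsK T g x) (hy : IsK T g y) : IsK T g (x / y) := by
  obtain ⟨f, h, rfl⟩ := hx
  obtain ⟨f', h', rfl⟩ := hy
  refine ⟨pmul f h', pmul h f', ?_⟩
  rw [xd_pmul, xd_pmul, div_div_div_eq]

/-- the constant one in the value group -/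
noncomputable def tau : Gam := vl T g [ut]

/-- the value at which series become zero -/
noncomputable def om : Gam := vl T g [rt]

theorem tau_nonneg : 0 ≤ tau T g := vl_nonneg T g _

theorem om_nonneg : 0 ≤ om T g := vl_nonneg T g _

theorem nsmul_tau_mono {a b : ℕ} (h : a ≤ b) : a • tau T g ≤ b • tau T g :=
  nsmul_le_nsmul_left (tau_nonneg T g) h

/-- bounded below by `-C` -/
def BB (C : ℕ) (x : Fld) : Prop := 0 ≤ x.orderTop + ((C • tau T g : Gam) : WithTop Gam)

/-- small up to `C` -/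
def SS (C : ℕ) (x : Fld) : Prop :=
  ((om T g : Gam) : WithTop Gam) ≤ x.orderTop + ((C • tau T g : Gam) : WithTop Gam)

theorem BB.mono {C C' : ℕ} {x : Fld} (h : BB T g C x) (hC : C ≤ C') : BB T g C' x :=
  h.trans (add_le_add le_rfl (WithTop.coe_le_coe.2 (nsmul_tau_mono T g hC)))

theorem SS.mono {C C' : ℕ} {x : Fld} (h : SS T g C x) (hC : C ≤ C') : SS T g C' x :=
  h.trans (add_le_add le_rfl (WithTop.coe_le_coe.2 (nsmul_tau_mono T g hC)))

theorem BB.add {C C' : ℕ} {x y : Fld} (hx : BB T g C x) (hy : BB T g C' y) :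
    BB T g (max C C') (x + y) := by
  have hx' := hx.mono T g (le_max_left C C')
  have hy' := hy.mono T g (le_max_right C C')
  unfold BB at *
  have h := HahnSeries.min_orderTop_le_orderTop_add (x := x) (y := y)
  rcases min_le_iff.1 (le_refl (min x.orderTop y.orderTop)) with h1 | h1
  · exact hx'.trans (add_le_add (h1.trans h) le_rfl)
  · exact hy'.trans (add_le_add (h1.trans h) le_rfl)

theorem SS.add {C C' : ℕ} {x y : Fld} (hx : SS T g C x) (hy : SS T g C' y) :
    SS T g (max C C') (x + y) := by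
  have hx' := hx.mono T g (le_max_left C C')
  have hy' := hy.mono T g (le_max_right C C')
  unfold SS at *
  have h := HahnSeries.min_orderTop_le_orderTop_add (x := x) (y := y)
  rcases min_le_iff.1 (le_refl (min x.orderTop y.orderTop)) with h1 | h1
  · exact hx'.trans (add_le_add (h1.trans h) le_rfl)
  · exact hy'.trans (add_le_add (h1.trans h) le_rfl)

theorem add_coe_nsmul (x y : Fld) (C C' : ℕ) :
    (x * y).orderTop + (((C + C') • tau T g : Gam) : WithTop Gam) =
      (x.orderTop + ((C • tau T g : Gam) : WithTop Gam)) +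
      (y.orderTop + ((C' • tau T g : Gam) : WithTop Gam)) := by
  rw [HahnSeries.orderTop_mul, add_nsmul, WithTop.coe_add]
  abel

theorem BB.mul {C C' : ℕ} {x y : Fld} (hx : BB T g C x) (hy : BB T g C' y) :
    BB T g (C + C') (x * y) := by
  unfold BB at *
  rw [add_coe_nsmul]
  exact add_nonneg hx hy

theorem SS.mul {C C' : ℕ} {x y : Fld} (hx : BB T g C x) (hy : SS T g C' y) :
    SS T g (C + C') (x * y) := by
  unfold SS BB at *
  rw [add_coe_nsmul]
  calc ((om T g : Gam) : WithTop Gam) = 0 + ((om T g : Gam) : WithTop Gam) := (zero_add _).symm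
    _ ≤ _ := add_le_add hx hy

theorem BB_zero : BB T g 0 0 := by
  unfold BB; rw [HahnSeries.orderTop_zero]; simp

theorem SS_zero : SS T g 0 0 := by
  unfold SS; rw [HahnSeries.orderTop_zero]; simp

theorem orderTop_one' : (1 : Fld).orderTop = 0 := HahnSeries.orderTop_one

theorem BB_one : BB T g 0 1 := by
  unfold BB; rw [orderTop_one']; simp

theorem BB_of_nonneg {x : Fld} (h : 0 ≤ x.orderTop) : BB T g 0 x := by
  unfold BB
  simpa using h

theorem SS.toBB {C : ℕ} {x : Fld} (h : SS T g C x) : BB T g C x := by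
  unfold SS at h; unfold BB
  exact le_trans (by exact_mod_cast om_nonneg T g) h

/-- The valuation ring of the small field. -/
noncomputable def VK : Subring Fld where
  carrier := {x | IsK T g x ∧ ∃ C, BB T g C x}
  mul_mem' := by
    rintro x y ⟨hx, C, hC⟩ ⟨hy, C', hC'⟩
    exact ⟨hx.mul T g hy, _, hC.mul T g hC'⟩
  one_mem' := ⟨isK_one T g, 0, BB_one T g⟩
  add_mem' := by
    rintro x y ⟨hx, C, hC⟩ ⟨hy, C', hC'⟩
    exact ⟨hx.add T g hy, _, hC.add T g hC'⟩
  zero_mem' := ⟨isK_zero T g, 0, BB_zero T g⟩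
  neg_mem' := by
    rintro x hx
    rw [neg_eq_self]
    exact hx

theorem mem_VK (x : Fld) : x ∈ VK T g ↔ (IsK T g x ∧ ∃ C, BB T g C x) := Iff.rfl

/-- The ideal of small elements. -/
noncomputable def IK : Ideal (VK T g) where
  carrier := {x | ∃ C, SS T g C (x : Fld)}
  add_mem' := by
    rintro x y ⟨C, hC⟩ ⟨C', hC'⟩
    exact ⟨_, hC.add T g hC'⟩
  zero_mem' := ⟨0, SS_zero T g⟩
  smul_mem' := by
    rintro c x ⟨C, hC⟩
    obtain ⟨C', hC'⟩ := c.2.2
    exact ⟨_, SS.mul T g hC' hC⟩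

theorem mem_IK (x : VK T g) : x ∈ IK T g ↔ ∃ C, SS T g C (x : Fld) := Iff.rfl

/-! ### Values of elements of the small field -/

theorem orderTop_xf (f : List (List ℕ)) (hf : xf T g f ≠ 0) :
    ∃ A ∈ f, (xf T g f).orderTop = ((vl T g A : Gam) : WithTop Gam) := by
  classical
  obtain ⟨γ, hγ⟩ : ∃ γ : Gam, (xf T g f).orderTop = γ :=
    ⟨_, (WithTop.coe_untop _ (HahnSeries.orderTop_ne_top.2 hf)).symm⟩
  have h4 := HahnSeries.coeff_orderTop_ne hγ
  rw [xf_coeff, zmod_two_ne_zero_iff] at h4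
  have h5 : 0 < f.countP (fun m => vl T g m = γ) := h4.pos
  rw [List.countP_pos_iff] at h5
  obtain ⟨a, ha, ha2⟩ := h5
  have ha3 : vl T g a = γ := by simpa using ha2
  exact ⟨a, ha, by rw [hγ, ha3]⟩

theorem orderTop_xd (f : List (List ℕ)) (hf : xd T g f ≠ 0) :
    ∃ A ∈ f, (xd T g f).orderTop = ((vl T g A + vl T g A : Gam) : WithTop Gam) := by
  obtain ⟨A', hA', h⟩ := orderTop_xf T g (dbl f) hf
  unfold dbl at hA'
  rw [List.mem_map] at hA'
  obtain ⟨A, hA, rfl⟩ := hA'
  exact ⟨A, hA, by rw [← vl_append]; exact h⟩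

/-- the value of a fraction -/
theorem orderTop_frac (f h : List (List ℕ)) (hx : xd T g f / xd T g h ≠ 0) :
    ∃ A ∈ f, ∃ B ∈ h, ∃ a : Gam, (xd T g f / xd T g h).orderTop = (a : WithTop Gam) ∧
      a + (vl T g B + vl T g B) = vl T g A + vl T g A := by
  have hf : xd T g f ≠ 0 := fun h0 => hx (by rw [h0, zero_div])
  have hh : xd T g h ≠ 0 := fun h0 => hx (by rw [h0, div_zero])
  obtain ⟨A, hA, hA2⟩ := orderTop_xd T g f hf
  obtain ⟨B, hB, hB2⟩ := orderTop_xd T g h hh
  obtain ⟨a, ha⟩ : ∃ a : Gam, (xd T g f / xd T g h).orderTop = a :=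
    ⟨_, (WithTop.coe_untop _ (HahnSeries.orderTop_ne_top.2 hx)).symm⟩
  refine ⟨A, hA, B, hB, a, ha, ?_⟩
  have h1 : (xd T g f / xd T g h * xd T g h).orderTop = (xd T g f).orderTop := by
    rw [div_mul_cancel₀ _ hh]
  rw [HahnSeries.orderTop_mul, ha, hA2, hB2, ← WithTop.coe_add, WithTop.coe_inj] at h1
  exact h1

/-! ### Gap lemmas -/

theorem val_form (A : List ℕ) : ∃ a, ∀ N, ∃ s1, ∀ s, s1 ≤ s → ∃ q, val (E T g) A s = a + 3 ^ N * q := by
  induction A with
  | nil => exact ⟨0, fun N => ⟨0, fun s _ => ⟨0, by simp [val]⟩⟩⟩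
  | cons n A ih =>
    obtain ⟨a, ha⟩ := ih
    have hcons : ∀ s, val (E T g) (n :: A) s = 3 ^ (E T g n s) + val (E T g) A s := by
      intro s; simp [val]
    rcases tri T g n ut with ⟨c, b, s1, h⟩ | h | h
    · -- eventually constant
      refine ⟨3 ^ (b - c) + a, fun N => ?_⟩
      obtain ⟨s2, h2⟩ := ha N
      refine ⟨max s1 s2, fun s hs => ?_⟩
      obtain ⟨q, hq⟩ := h2 s ((le_max_right _ _).trans hs)
      have h3 := h s ((le_max_left _ _).trans hs)
      rw [E_ut] at h3
      have h4 : E T g n s = b - c := by omega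
      exact ⟨q, by rw [hcons, h4, hq]; ring⟩
    · refine ⟨a, fun N => ?_⟩
      obtain ⟨s2, h2⟩ := ha N
      obtain ⟨s1, h1⟩ := h N
      refine ⟨max s1 s2, fun s hs => ?_⟩
      obtain ⟨q, hq⟩ := h2 s ((le_max_right _ _).trans hs)
      have h3 := h1 s ((le_max_left _ _).trans hs)
      rw [E_ut] at h3
      obtain ⟨j, hj⟩ : ∃ j, E T g n s = N + j := ⟨E T g n s - N, by omega⟩
      exact ⟨3 ^ j + q, by rw [hcons, hj, hq, pow_add]; ring⟩
    · exfalso
      obtain ⟨s1, h1⟩ := h 1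
      have := h1 s1 le_rfl
      rw [E_ut] at this
      omega

/-- the parity gap: twice a difference of values stays far from `3 ^ (E rt s)` -/
theorem parity_gap (hP : Dom T g rt ut) (A B : List ℕ) (C : ℕ) : ∃ s1, ∀ s, s1 ≤ s →
    (C : ℤ) < |2 * (val (E T g) A s : ℤ) - 2 * (val (E T g) B s : ℤ) - 3 ^ (E T g rt s)| := by
  obtain ⟨a, ha⟩ := val_form T g A
  obtain ⟨b, hb⟩ := val_form T g B
  set N := C + 2 * a + 2 * b + 1 with hN
  obtain ⟨s1, h1⟩ := ha N
  obtain ⟨s2, h2⟩ := hb N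
  obtain ⟨s3, h3⟩ := hP N
  refine ⟨max s1 (max s2 s3), fun s hs => ?_⟩
  obtain ⟨q, hq⟩ := h1 s ((le_max_left _ _).trans hs)
  obtain ⟨q', hq'⟩ := h2 s (((le_max_left _ _).trans (le_max_right _ _)).trans hs)
  have h4 := h3 s (((le_max_right _ _).trans (le_max_right _ _)).trans hs)
  rw [E_ut] at h4
  obtain ⟨j, hj⟩ : ∃ j, E T g rt s = N + j := ⟨E T g rt s - N, by omega⟩
  rw [hq, hq', hj]
  push_cast
  have hid : 2 * ((a : ℤ) + 3 ^ N * q) - 2 * ((b : ℤ) + 3 ^ N * q') - 3 ^ (N + j) =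
      (2 * (a : ℤ) - 2 * b) + 3 ^ N * (2 * (q : ℤ) - 2 * q' - 3 ^ j) := by
    rw [pow_add]; ring
  rw [hid]
  have hodd : (2 * (q : ℤ) - 2 * q' - 3 ^ j) ≠ 0 := by
    intro h0
    have h5 : Odd ((3 : ℤ) ^ j) := Odd.pow (by decide)
    have h6 : (3 : ℤ) ^ j = 2 * ((q : ℤ) - q') := by linarith
    rw [h6] at h5
    exact (Int.not_even_iff_odd.2 h5) (even_two_mul _)
  have h7 : (3 : ℤ) ^ N ≤ |3 ^ N * (2 * (q : ℤ) - 2 * q' - 3 ^ j)| := by
    rw [abs_mul, abs_of_pos (by positivity : (0 : ℤ) < 3 ^ N)]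
    have : 1 ≤ |(2 * (q : ℤ) - 2 * q' - 3 ^ j)| := Int.one_le_abs hodd
    nlinarith [show (0 : ℤ) < 3 ^ N by positivity]
  have h8 : (N : ℤ) < 3 ^ N := by exact_mod_cast Nat.lt_pow_self (n := N) (by norm_num : 1 < 3)
  have h9 : |(2 * (a : ℤ) - 2 * b)| ≤ 2 * a + 2 * b := by
    rw [abs_le]; constructor <;> omega
  have h10 := abs_sub_abs_le_abs_sub (3 ^ N * (2 * (q : ℤ) - 2 * q' - 3 ^ j))
    (-(2 * (a : ℤ) - 2 * b))
  rw [abs_neg, sub_neg_eq_add, add_comm (3 ^ N * (2 * (q : ℤ) - 2 * q' - 3 ^ j))] at h10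
  have h11 : (N : ℤ) = C + 2 * a + 2 * b + 1 := by rw [hN]; push_cast; ring
  linarith

theorem nsmul_tau (C : ℕ) : C • tau T g = ((fun _ => (C : ℤ) : ℕ → ℤ) : Gam) := by
  unfold tau vl
  rw [← Germ.coe_nsmul]
  congr 1
  funext s
  simp [val, E_ut]

/-- In the small field, being small up to a constant is the same as being small. -/
theorem SS_iff (hP : Dom T g rt ut) (x : Fld) (hx : IsK T g x) :
    (∃ C, SS T g C x) ↔ ((om T g : Gam) : WithTop Gam) ≤ x.orderTop := by
  constructor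
  · rintro ⟨C, hC⟩
    by_cases h0 : x = 0
    · rw [h0, HahnSeries.orderTop_zero]; exact le_top
    obtain ⟨f, h, rfl⟩ := hx
    obtain ⟨A, _, B, _, a, ha, hab⟩ := orderTop_frac T g f h h0
    unfold SS at hC
    rw [ha] at hC ⊢
    rw [← WithTop.coe_add, WithTop.coe_le_coe] at hC
    rw [WithTop.coe_le_coe]
    by_contra hlt
    rw [not_le] at hlt
    -- transfer to stages
    have ha' : a = ((fun s => 2 * (val (E T g) A s : ℤ) - 2 * (val (E T g) B s : ℤ) : ℕ → ℤ) :
        Gam) := by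
      have h1 : a = (vl T g A + vl T g A) - (vl T g B + vl T g B) := by
        rw [← hab]; abel
      rw [h1]
      unfold vl
      rw [← Germ.coe_add, ← Germ.coe_add, ← Germ.coe_sub]
      congr 1
      funext s
      simp only [Pi.sub_apply, Pi.add_apply]
      ring
    have hom : om T g = ((fun s => (3 : ℤ) ^ (E T g rt s) : ℕ → ℤ) : Gam) := by
      have h1 : (fun s => ((val (E T g) [rt] s : ℕ) : ℤ)) = (fun s => (3 : ℤ) ^ (E T g rt s)) := by
        funext s
        simp [val]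
      unfold om vl
      rw [h1]
    rw [ha', hom, nsmul_tau, ← Germ.coe_add, Germ.coe_le] at hC
    rw [ha', hom, Germ.coe_lt] at hlt
    obtain ⟨s1, hs1⟩ := parity_gap T g hP A B C
    obtain ⟨s, ⟨h2, h3⟩, h4⟩ := ((hC.and hlt).and (eventually_ge s1)).exists
    have h5 := hs1 s h4
    simp only [Pi.add_apply] at h2
    rw [lt_abs] at h5
    rcases h5 with h5 | h5 <;> linarith
  · intro h
    refine ⟨0, ?_⟩
    unfold SS
    simpa using h

/-- divisibility lemma -/
theorem div_lemma (A B : List ℕ) (n : ℕ) (hn : ∀ m ∈ A ++ B, vl T g [n] ≤ vl T g [m]) :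
    vl T g A ≤ vl T g B ∨ vl T g B + vl T g [n] ≤ vl T g A := by
  have h1 : ∀ᶠ s in (hyperfilter ℕ : Filter ℕ), ∀ m ∈ A ++ B, E T g n s ≤ E T g m s := by
    have h2 : ∀ m ∈ (A ++ B).toFinset, ∀ᶠ s in (hyperfilter ℕ : Filter ℕ),
        E T g n s ≤ E T g m s := by
      intro m hm
      have h3 := (vl_le_iff T g _ _).1 (hn m (List.mem_toFinset.1 hm))
      refine h3.mono (fun s hs => ?_)
      rw [val_singleton, val_singleton] at hs
      exact (Nat.pow_le_pow_iff_right (by norm_num)).1 hs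
    have h4 := (Filter.eventually_all_finset (A ++ B).toFinset).2 h2
    exact h4.mono (fun s hs m hm => hs m (List.mem_toFinset.2 hm))
  have hdvd : ∀ (L : List ℕ) (s : ℕ), (∀ m ∈ L, E T g n s ≤ E T g m s) →
      3 ^ (E T g n s) ∣ val (E T g) L s := by
    intro L s hL
    unfold val
    apply List.dvd_sum
    intro x hx
    rw [List.mem_map] at hx
    obtain ⟨m, hm, rfl⟩ := hx
    exact pow_dvd_pow 3 (hL m hm)
  have h5 : ∀ᶠ s in (hyperfilter ℕ : Filter ℕ), (val (E T g) A s ≤ val (E T g) B s ∨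
      val (E T g) (B ++ [n]) s ≤ val (E T g) A s) := by
    refine h1.mono (fun s hs => ?_)
    have hA := hdvd A s (fun m hm => hs m (List.mem_append_left _ hm))
    have hB := hdvd B s (fun m hm => hs m (List.mem_append_right _ hm))
    rw [val_append, val_singleton]
    obtain ⟨p, hp⟩ := hA
    obtain ⟨q, hq⟩ := hB
    rw [hp, hq]
    rcases Nat.lt_or_ge q p with h | h
    · right
      calc 3 ^ E T g n s * q + 3 ^ E T g n s = 3 ^ E T g n s * (q + 1) := by ring
        _ ≤ 3 ^ E T g n s * p := Nat.mul_le_mul_left _ h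
    · left
      exact Nat.mul_le_mul_left _ h
  rw [Ultrafilter.eventually_or] at h5
  rcases h5 with h5 | h5
  · left
    exact (vl_le_iff T g _ _).2 h5
  · right
    rw [← vl_append]
    exact (vl_le_iff T g _ _).2 h5

end

end Pool.Agent.LibFed070
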