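import Pool.Agent.LibFed070.Tree

set_option autoImplicit false

/-! The valued field in which the ring lives. -/

namespace Pool.Agent.LibFed070

open Filter

/-- The value group: integer sequences modulo a nonprincipal ultrafilter. -/
abbrev Gam : Type := Germ (hyperfilter ℕ : Filter ℕ) ℤ

/-- The field. -/
abbrev Fld : Type := HahnSeries Gam (ZMod 2)

section

variable (T : List ℕ → Bool) (g : List ℕ → ℕ)

/-- value of a monomial -/
noncomputable def vl (A : List ℕ) : Gam := ((fun s => (val (E T g) A s : ℤ) : ℕ → ℤ) : Gam)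

theorem val_append (e : ℕ → ℕ → ℕ) (A B : List ℕ) (s : ℕ) :
    val e (A ++ B) s = val e A s + val e B s := by simp [val]

theorem val_singleton (e : ℕ → ℕ → ℕ) (n : ℕ) (s : ℕ) : val e [n] s = 3 ^ (e n s) := by simp [val]

theorem vl_append (A B : List ℕ) : vl T g (A ++ B) = vl T g A + vl T g B := by
  unfold vl
  rw [← Germ.coe_add]
  congr 1
  funext s
  simp [val_append]

theorem vl_nil : vl T g [] = 0 := rfl

theorem vl_le_iff (A B : List ℕ) :
    vl T g A ≤ vl T g B ↔ ∀ᶠ s in (hyperfilter ℕ : Filter ℕ), val (E T g) A s ≤ val (E T g) B s := by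
  unfold vl
  rw [Germ.coe_le]
  constructor
  · intro h
    exact h.mono (fun s hs => (Nat.cast_le (α := ℤ)).1 hs)
  · intro h
    exact h.mono (fun s hs => (Nat.cast_le (α := ℤ)).2 hs)

theorem vl_nonneg (A : List ℕ) : 0 ≤ vl T g A := by
  rw [← vl_nil T g, vl_le_iff]
  exact Eventually.of_forall (fun s => by simp [val])

theorem eventually_ge (s1 : ℕ) : ∀ᶠ s in (hyperfilter ℕ : Filter ℕ), s1 ≤ s := by
  apply hyperfilter_le_cofinite
  rw [Nat.cofinite_eq_atTop]
  exact eventually_ge_atTop s1

theorem vl_le_of_ge (A B : List ℕ) (s1 : ℕ)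
    (h : ∀ s, s1 ≤ s → val (E T g) A s ≤ val (E T g) B s) : vl T g A ≤ vl T g B := by
  rw [vl_le_iff]
  exact (eventually_ge s1).mono h

/-- Stage at which comparisons bounded by `N` are decided. -/
def stg (N : ℕ) : ℕ := N + Er T g N + (N + 1)

/-- The list `m` is bounded by `N`. -/
def Bdd (m : List ℕ) (N : ℕ) : Prop := m.length ≤ N ∧ ∀ n ∈ m, n.unpair.1 ≤ N

theorem two_mul_lt_three_pow (N : ℕ) : 2 * N < 3 ^ (N + 1) := by
  have : N < 3 ^ N := Nat.lt_pow_self (by norm_num)
  rw [pow_succ]
  omega

theorem stable (m m' : List ℕ) (N : ℕ) (hm : Bdd m N) (hm' : Bdd m' N) (s : ℕ)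
    (hs : stg T g N ≤ s) :
    val (E T g) m s ≤ val (E T g) m' s ↔
      val (E T g) m (stg T g N) ≤ val (E T g) m' (stg T g N) := by
  apply stab (E T g) (stg T g N) (N + 1) (by omega) m m' _ _ s hs
  · intro a ha b hb
    have ha' : a.unpair.1 ≤ N := by
      rcases List.mem_append.1 ha with h | h
      · exact hm.2 a h
      · exact hm'.2 a h
    have hb' : b.unpair.1 ≤ N := by
      rcases List.mem_append.1 hb with h | h
      · exact hm.2 b h
      · exact hm'.2 b h
    exact res_of_large T g a b N _ _ ha' hb' le_rfl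
  · have h1 := two_mul_lt_three_pow N
    have h2 := hm.1
    have h3 := hm'.1
    omega

theorem vl_le_iff_stage (m m' : List ℕ) (N : ℕ) (hm : Bdd m N) (hm' : Bdd m' N) :
    vl T g m ≤ vl T g m' ↔
      val (E T g) m (stg T g N) ≤ val (E T g) m' (stg T g N) := by
  rw [vl_le_iff]
  constructor
  · intro h
    obtain ⟨s, hs1, hs2⟩ := (h.and (eventually_ge (stg T g N))).exists
    exact (stable T g m m' N hm hm' s hs2).1 hs1
  · intro h
    exact (eventually_ge (stg T g N)).mono (fun s hs => (stable T g m m' N hm hm' s hs).2 h)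

/-! ### Polynomials -/

/-- the series of a list of monomials -/
noncomputable def xf (f : List (List ℕ)) : Fld :=
  (f.map (fun m => HahnSeries.single (vl T g m) (1 : ZMod 2))).sum

/-- product of lists of monomials -/
def pmul (f h : List (List ℕ)) : List (List ℕ) := f.flatMap (fun m => h.map (fun m' => m ++ m'))

theorem xf_nil : xf T g [] = 0 := rfl

theorem xf_cons (m : List ℕ) (f : List (List ℕ)) :
    xf T g (m :: f) = HahnSeries.single (vl T g m) (1 : ZMod 2) + xf T g f := by
  simp [xf]

theorem xf_append (f h : List (List ℕ)) : xf T g (f ++ h) = xf T g f + xf T g h := by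
  simp [xf]

theorem xf_singleton (m : List ℕ) :
    xf T g [m] = HahnSeries.single (vl T g m) (1 : ZMod 2) := by simp [xf]

theorem single_mul_xf (m : List ℕ) (h : List (List ℕ)) :
    HahnSeries.single (vl T g m) (1 : ZMod 2) * xf T g h = xf T g (h.map (fun m' => m ++ m')) := by
  induction h with
  | nil => simp [xf_nil]
  | cons a h ih =>
    rw [List.map_cons, xf_cons, xf_cons, mul_add, ih, HahnSeries.single_mul_single, vl_append,
      mul_one]

theorem xf_pmul (f h : List (List ℕ)) : xf T g (pmul f h) = xf T g f * xf T g h := by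
  induction f with
  | nil => simp [pmul, xf_nil]
  | cons a f ih =>
    have : pmul (a :: f) h = h.map (fun m' => a ++ m') ++ pmul f h := by simp [pmul]
    rw [this, xf_append, xf_cons, add_mul, ih, single_mul_xf]

theorem xf_coeff (f : List (List ℕ)) (γ : Gam) [DecidablePred (fun m : List ℕ => vl T g m = γ)] :
    (xf T g f).coeff γ = ((f.countP (fun m => vl T g m = γ) : ℕ) : ZMod 2) := by
  induction f with
  | nil => simp [xf_nil]
  | cons a f ih =>
    rw [xf_cons, HahnSeries.coeff_add, ih, List.countP_cons]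
    by_cases h : vl T g a = γ
    · have h1 : (HahnSeries.single (vl T g a) (1 : ZMod 2)).coeff γ = 1 := by
        rw [h]
        exact HahnSeries.coeff_single_same _ _
      rw [h1]
      simp [h, add_comm]
    · rw [HahnSeries.coeff_single_of_ne (Ne.symm h)]
      simp [h]

theorem zmod_two_ne_zero_iff (n : ℕ) : ((n : ℕ) : ZMod 2) ≠ 0 ↔ Odd n := by
  rw [Ne, ZMod.natCast_eq_zero_iff_even, Nat.not_even_iff_odd]

open scoped Classical in
theorem orderTop_le_iff (f h : List (List ℕ)) :
    (xf T g f).orderTop ≤ (xf T g h).orderTop ↔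
      ∀ b ∈ h, Odd (h.countP (fun m => vl T g m = vl T g b)) →
        ∃ a ∈ f, Odd (f.countP (fun m => vl T g m = vl T g a)) ∧ vl T g a ≤ vl T g b := by
  constructor
  · intro hle b _ hodd
    have h1 : (xf T g h).coeff (vl T g b) ≠ 0 := by
      rw [xf_coeff, zmod_two_ne_zero_iff]
      exact hodd
    have h2 := HahnSeries.orderTop_le_of_coeff_ne_zero h1
    have h3 : (xf T g f).orderTop ≤ (vl T g b : WithTop Gam) := hle.trans h2
    obtain ⟨γ, hγ⟩ : ∃ γ : Gam, (xf T g f).orderTop = γ := by
      have : (xf T g f).orderTop ≠ ⊤ := ne_top_of_le_ne_top (WithTop.coe_ne_top) h3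
      exact ⟨_, (WithTop.coe_untop _ this).symm⟩
    have h4 := HahnSeries.coeff_orderTop_ne hγ
    rw [xf_coeff, zmod_two_ne_zero_iff] at h4
    have h5 : 0 < f.countP (fun m => vl T g m = γ) := h4.pos
    rw [List.countP_pos_iff] at h5
    obtain ⟨a, ha, ha2⟩ := h5
    have ha3 : vl T g a = γ := by simpa using ha2
    refine ⟨a, ha, ?_, ?_⟩
    · rw [ha3]
      exact h4
    · rw [ha3]
      rw [hγ] at h3
      exact WithTop.coe_le_coe.1 h3
  · intro hall
    by_cases h0 : xf T g h = 0
    · rw [h0, HahnSeries.orderTop_zero]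
      exact le_top
    · obtain ⟨γ, hγ⟩ : ∃ γ : Gam, (xf T g h).orderTop = γ := by
        have : (xf T g h).orderTop ≠ ⊤ := HahnSeries.orderTop_ne_top.2 h0
        exact ⟨_, (WithTop.coe_untop _ this).symm⟩
      have h4 := HahnSeries.coeff_orderTop_ne hγ
      rw [xf_coeff, zmod_two_ne_zero_iff] at h4
      have h5 : 0 < h.countP (fun m => vl T g m = γ) := h4.pos
      rw [List.countP_pos_iff] at h5
      obtain ⟨b, hb, hb2⟩ := h5
      have hb3 : vl T g b = γ := by simpa using hb2
      rw [← hb3] at h4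
      obtain ⟨a, _, hodd, hle⟩ := hall b hb h4
      have h6 : (xf T g f).coeff (vl T g a) ≠ 0 := by
        rw [xf_coeff, zmod_two_ne_zero_iff]
        exact hodd
      have h7 := HahnSeries.orderTop_le_of_coeff_ne_zero h6
      rw [hγ, ← hb3]
      exact h7.trans (WithTop.coe_le_coe.2 hle)

/-- decision on lists of natural numbers -/
def leVals (F G : List ℕ) : Prop :=
  ∀ b ∈ G, (G.filter (fun x => x = b)).length % 2 = 1 →
    ∃ a ∈ F, (F.filter (fun x => x = a)).length % 2 = 1 ∧ a ≤ b

instance (F G : List ℕ) : Decidable (leVals F G) := by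
  unfold leVals
  infer_instance

theorem orderTop_le_iff_leVals (f h : List (List ℕ)) (N : ℕ) (hf : ∀ m ∈ f, Bdd m N)
    (hh : ∀ m ∈ h, Bdd m N) :
    (xf T g f).orderTop ≤ (xf T g h).orderTop ↔
      leVals (f.map (fun m => val (E T g) m (stg T g N)))
        (h.map (fun m => val (E T g) m (stg T g N))) := by
  classical
  rw [orderTop_le_iff]
  unfold leVals
  set s := stg T g N with hs
  have heq : ∀ m m' : List ℕ, Bdd m N → Bdd m' N →
      (vl T g m = vl T g m' ↔ val (E T g) m s = val (E T g) m' s) := by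
    intro m m' hm hm'
    rw [le_antisymm_iff, vl_le_iff_stage T g m m' N hm hm', vl_le_iff_stage T g m' m N hm' hm,
      ← le_antisymm_iff]
  have hcount : ∀ (l : List (List ℕ)) (_ : ∀ m ∈ l, Bdd m N) (b : List ℕ) (_ : Bdd b N),
      l.countP (fun m => vl T g m = vl T g b) =
      ((l.map (fun m => val (E T g) m s)).filter (fun x => x = val (E T g) b s)).length := by
    intro l hl b hb
    rw [← List.countP_eq_length_filter, List.countP_map]
    apply List.countP_congr
    intro m hm
    simp only [Function.comp_apply, decide_eq_true_eq]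
    exact heq m b (hl m hm) hb
  constructor
  · intro H b hb hodd
    rw [List.mem_map] at hb
    obtain ⟨b, hb, rfl⟩ := hb
    rw [← hcount h hh b (hh b hb), ← Nat.odd_iff] at hodd
    obtain ⟨a, ha, hodda, hle⟩ := H b hb hodd
    refine ⟨val (E T g) a s, List.mem_map.2 ⟨a, ha, rfl⟩, ?_, ?_⟩
    · rw [← hcount f hf a (hf a ha), ← Nat.odd_iff]
      exact hodda
    · exact (vl_le_iff_stage T g a b N (hf a ha) (hh b hb)).1 hle
  · intro H b hb hodd
    obtain ⟨a', ha', hodda, hle⟩ := H (val (E T g) b s) (List.mem_map.2 ⟨b, hb, rfl⟩) (by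
      rw [← hcount h hh b (hh b hb), ← Nat.odd_iff]
      exact hodd)
    rw [List.mem_map] at ha'
    obtain ⟨a, ha, rfl⟩ := ha'
    refine ⟨a, ha, ?_, ?_⟩
    · rw [Nat.odd_iff, hcount f hf a (hf a ha)]
      exact hodda
    · exact (vl_le_iff_stage T g a b N (hf a ha) (hh b hb)).2 hle

end

end Pool.Agent.LibFed070
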