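import Mathlib

set_option autoImplicit false

/-! Stability of comparisons of sums of powers of three. -/

namespace Pool.Agent.LibFed070

/-- `∑_{n ∈ A} 3 ^ (E n s)` -/
def val (E : ℕ → ℕ → ℕ) (A : List ℕ) (s : ℕ) : ℕ := (A.map (fun n => 3 ^ (E n s))).sum

/-- the pair `n, m` is resolved from stage `s0` on with gap `L` -/
def Res (E : ℕ → ℕ → ℕ) (n m s0 L : ℕ) : Prop :=
  (∀ s, s0 ≤ s → E n s + E m s0 = E m s + E n s0) ∨
  (∀ s, s0 ≤ s → E m s + L ≤ E n s) ∨ (∀ s, s0 ≤ s → E n s + L ≤ E m s)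

/-- signed sum -/
def H (E : ℕ → ℕ → ℕ) (l : List (ℤ × ℕ)) (s : ℕ) : ℤ :=
  (l.map (fun p => p.1 * 3 ^ (E p.2 s))).sum

/-- total mass -/
def mass (l : List (ℤ × ℕ)) : ℤ := (l.map (fun p => |p.1|)).sum

theorem mass_nonneg (l : List (ℤ × ℕ)) : 0 ≤ mass l := by
  unfold mass
  apply List.sum_nonneg
  intro x hx
  rw [List.mem_map] at hx
  obtain ⟨p, _, rfl⟩ := hx
  exact abs_nonneg _

theorem horner (E : ℕ → ℕ → ℕ) (s0 L : ℕ) (hL : 1 ≤ L) : ∀ (l : List (ℤ × ℕ)) (p : ℤ × ℕ),
    (p :: l).Pairwise (fun a b => E a.2 s0 ≤ E b.2 s0) →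
    (∀ a ∈ p :: l, ∀ b ∈ p :: l, Res E a.2 b.2 s0 L) →
    mass (p :: l) ≤ 3 ^ L →
    ∃ G : ℕ → ℤ, (∀ s, s0 ≤ s → H E (p :: l) s = 3 ^ (E p.2 s) * G s) ∧
      ((∀ s, s0 ≤ s → G s = G s0) ∨ (∀ s, s0 ≤ s → (3 : ℤ) ^ L ≤ G s + mass (p :: l)) ∨
        (∀ s, s0 ≤ s → G s + (3 : ℤ) ^ L ≤ mass (p :: l))) := by
  intro l
  induction l with
  | nil =>
    intro p _ _ _
    refine ⟨fun _ => p.1, fun s _ => by simp [H, mul_comm], Or.inl (fun s _ => rfl)⟩
  | cons q l ih =>
    intro p hsort hres hmass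
    have hsort' := List.pairwise_cons.1 hsort
    have hm : mass (p :: q :: l) = |p.1| + mass (q :: l) := by simp [mass]
    have hm0 := mass_nonneg (q :: l)
    have hp0 := abs_nonneg p.1
    obtain ⟨G', hG', hcase⟩ := ih q hsort'.2
      (fun a ha b hb => hres a (List.mem_cons_of_mem _ ha) b (List.mem_cons_of_mem _ hb))
      (by linarith)
    have hpq0 : E p.2 s0 ≤ E q.2 s0 := hsort'.1 q (by simp)
    have hrespq := hres p (by simp) q (by simp)
    have hle : ∀ s, s0 ≤ s → E p.2 s ≤ E q.2 s := by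
      intro s hs
      rcases hrespq with h | h | h
      · have := h s hs; omega
      · have := h s0 le_rfl; omega
      · have := h s hs; omega
    -- the difference is constant or large
    have hd : (∀ s, s0 ≤ s → E q.2 s - E p.2 s = E q.2 s0 - E p.2 s0) ∨
        (∀ s, s0 ≤ s → L ≤ E q.2 s - E p.2 s) := by
      rcases hrespq with h | h | h
      · left; intro s hs; have := h s hs; have := hle s hs; omega
      · exfalso; have := h s0 le_rfl; omega
      · right; intro s hs; have := h s hs; omega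
    refine ⟨fun s => p.1 + 3 ^ (E q.2 s - E p.2 s) * G' s, fun s hs => ?_, ?_⟩
    · have h1 : H E (p :: q :: l) s = p.1 * 3 ^ (E p.2 s) + H E (q :: l) s := by simp [H]
      rw [h1, hG' s hs, mul_add, ← mul_assoc, ← pow_add, Nat.add_sub_cancel' (hle s hs)]
      ring
    · have hneg := neg_abs_le p.1
      have hpos := le_abs_self p.1
      have hpow : ∀ k : ℕ, (1 : ℤ) ≤ 3 ^ k := fun k => one_le_pow₀ (by norm_num)
      rcases hcase with hc | hc | hc
      · rcases hd with hd | hd
        · left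
          intro s hs
          simp only [hc s hs, hd s hs]
        · rcases lt_trichotomy (G' s0) 0 with hneg' | hzero | hpos'
          · right; right
            intro s hs
            have h1 : (3 : ℤ) ^ L ≤ 3 ^ (E q.2 s - E p.2 s) :=
              pow_le_pow_right₀ (by norm_num) (hd s hs)
            have h2 : 3 ^ (E q.2 s - E p.2 s) * G' s ≤ - (3 : ℤ) ^ L := by
              rw [hc s hs]
              nlinarith
            simp only []
            linarith
          · left
            intro s hs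
            simp only [hc s hs, hzero, mul_zero]
          · right; left
            intro s hs
            have h1 : (3 : ℤ) ^ L ≤ 3 ^ (E q.2 s - E p.2 s) :=
              pow_le_pow_right₀ (by norm_num) (hd s hs)
            have h2 : (3 : ℤ) ^ L ≤ 3 ^ (E q.2 s - E p.2 s) * G' s := by
              rw [hc s hs]
              nlinarith
            simp only []
            linarith
      · right; left
        intro s hs
        have h1 := hc s hs
        have h2 : 0 ≤ G' s := by linarith
        have h3 : G' s ≤ 3 ^ (E q.2 s - E p.2 s) * G' s := by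
          nlinarith [hpow (E q.2 s - E p.2 s)]
        simp only []
        linarith
      · right; right
        intro s hs
        have h1 := hc s hs
        have h2 : G' s ≤ 0 := by linarith
        have h3 : 3 ^ (E q.2 s - E p.2 s) * G' s ≤ G' s := by
          nlinarith [hpow (E q.2 s - E p.2 s)]
        simp only []
        linarith

theorem H_perm (E : ℕ → ℕ → ℕ) {l l' : List (ℤ × ℕ)} (h : l.Perm l') (s : ℕ) :
    H E l s = H E l' s := (h.map _).sum_eq

theorem mass_perm {l l' : List (ℤ × ℕ)} (h : l.Perm l') : mass l = mass l' := (h.map _).sum_eq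

theorem H_sign (E : ℕ → ℕ → ℕ) (s0 L : ℕ) (hL : 1 ≤ L) (l : List (ℤ × ℕ))
    (hres : ∀ a ∈ l, ∀ b ∈ l, Res E a.2 b.2 s0 L) (hmass : mass l < 3 ^ L) (s : ℕ) (hs : s0 ≤ s) :
    0 ≤ H E l s ↔ 0 ≤ H E l s0 := by
  classical
  set r : ℤ × ℕ → ℤ × ℕ → Prop := fun a b => E a.2 s0 ≤ E b.2 s0 with hr
  have htot : Std.Total r := ⟨fun a b => le_total _ _⟩
  have htrans : IsTrans (ℤ × ℕ) r := ⟨fun a b c hab hbc => le_trans hab hbc⟩
  set l' := l.insertionSort r with hl'
  have hperm : l'.Perm l := List.perm_insertionSort r l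
  have hsorted : l'.Pairwise r := List.pairwise_insertionSort r l
  rw [← H_perm E hperm s, ← H_perm E hperm s0]
  have hmass' : mass l' < 3 ^ L := by rw [mass_perm hperm]; exact hmass
  have hres' : ∀ a ∈ l', ∀ b ∈ l', Res E a.2 b.2 s0 L :=
    fun a ha b hb => hres a (hperm.mem_iff.1 ha) b (hperm.mem_iff.1 hb)
  rcases hcs : l' with _ | ⟨p, t⟩
  · simp [H]
  · rw [hcs] at hsorted hmass' hres'
    obtain ⟨G, hG, hcase⟩ := horner E s0 L hL t p hsorted hres' hmass'.le
    rw [hG s hs, hG s0 le_rfl]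
    have e1 : (0 : ℤ) < 3 ^ (E p.2 s) := by positivity
    have e2 : (0 : ℤ) < 3 ^ (E p.2 s0) := by positivity
    rw [mul_nonneg_iff_of_pos_left e1, mul_nonneg_iff_of_pos_left e2]
    rcases hcase with h | h | h
    · rw [h s hs]
    · have h1 := h s hs
      have h2 := h s0 le_rfl
      constructor <;> intro _ <;> linarith
    · have h1 := h s hs
      have h2 := h s0 le_rfl
      constructor <;> intro _ <;> linarith

theorem H_append (E : ℕ → ℕ → ℕ) (l l' : List (ℤ × ℕ)) (s : ℕ) :
    H E (l ++ l') s = H E l s + H E l' s := by simp [H]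

theorem H_pos (E : ℕ → ℕ → ℕ) (A : List ℕ) (s : ℕ) :
    H E (A.map (fun n => ((1 : ℤ), n))) s = (val E A s : ℤ) := by
  induction A with
  | nil => simp [H, val]
  | cons n A ih =>
    simp only [H, val, List.map_cons, List.sum_cons, Nat.cast_add] at ih ⊢
    rw [ih]
    push_cast
    ring

theorem H_neg (E : ℕ → ℕ → ℕ) (A : List ℕ) (s : ℕ) :
    H E (A.map (fun n => ((-1 : ℤ), n))) s = -(val E A s : ℤ) := by
  induction A with
  | nil => simp [H, val]
  | cons n A ih =>
    simp only [H, val, List.map_cons, List.sum_cons, Nat.cast_add] at ih ⊢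
    rw [ih]
    push_cast
    ring

theorem mass_signed (A B : List ℕ) :
    mass (A.map (fun n => ((1 : ℤ), n)) ++ B.map (fun n => ((-1 : ℤ), n))) =
      (A.length : ℤ) + B.length := by
  simp [mass, Function.comp_def]

theorem stab (E : ℕ → ℕ → ℕ) (s0 L : ℕ) (hL : 1 ≤ L) (A B : List ℕ)
    (hres : ∀ n ∈ A ++ B, ∀ m ∈ A ++ B, Res E n m s0 L) (hlen : A.length + B.length < 3 ^ L)
    (s : ℕ) (hs : s0 ≤ s) : val E A s ≤ val E B s ↔ val E A s0 ≤ val E B s0 := by
  set l : List (ℤ × ℕ) := B.map (fun n => ((1 : ℤ), n)) ++ A.map (fun n => ((-1 : ℤ), n)) with hl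
  have hmem : ∀ a ∈ l, a.2 ∈ A ++ B := by
    intro a ha
    rw [hl, List.mem_append, List.mem_map, List.mem_map] at ha
    rw [List.mem_append]
    rcases ha with ⟨n, hn, rfl⟩ | ⟨n, hn, rfl⟩
    · exact Or.inr hn
    · exact Or.inl hn
  have h1 := H_sign E s0 L hL l (fun a ha b hb => hres _ (hmem a ha) _ (hmem b hb))
    (by rw [hl, mass_signed]; exact_mod_cast (by omega)) s hs
  have hH : ∀ s, H E l s = (val E B s : ℤ) - val E A s := by
    intro s
    rw [hl, H_append, H_pos, H_neg]
    ring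
  rw [hH, hH] at h1
  constructor
  · intro h
    have := h1.1 (by omega)
    omega
  · intro h
    have := h1.2 (by omega)
    omega

end Pool.Agent.LibFed070
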