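import Pool.Agent.LibFed070.Stability

set_option autoImplicit false

/-! The levels of a computably bounded tree and the growth functions of its cuts. -/

namespace Pool.Agent.LibFed070

section

variable (T : List ℕ → Bool) (g : List ℕ → ℕ)

/-- children of a node -/
def ch (σ : List ℕ) : List (List ℕ) :=
  ((List.range (g σ)).map (fun i => σ ++ [i])).flatMap (fun τ => if T τ = true then [τ] else [])

/-- descendants after `k` generations -/
def desc (A : List (List ℕ)) (k : ℕ) : List (List ℕ) :=
  Nat.rec (motive := fun _ => List (List ℕ)) A (fun _ L => L.flatMap (ch T g)) k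

/-- level `l` -/
def lv (l : ℕ) : List (List ℕ) := desc T g [[]] l

/-- the nodes below the cut `n = (l, i)`: the first `i` nodes of level `l` -/
def bas (n : ℕ) : List (List ℕ) := (lv T g n.unpair.1).take n.unpair.2

/-- descendants at level `t` of the nodes below the cut `n` -/
def D (n t : ℕ) : List (List ℕ) := desc T g (bas T g n) (t - n.unpair.1)

/-- growth function of the cut `n` -/
def E (n s : ℕ) : ℕ :=
  ((List.range (s - n.unpair.1)).map (fun k => (desc T g (bas T g n) k).length)).sum

/-- growth function of the whole tree -/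
def Er (s : ℕ) : ℕ := ((List.range s).map (fun k => (lv T g k).length)).sum

theorem mem_ch (σ τ : List ℕ) :
    τ ∈ ch T g σ ↔ ∃ i, i < g σ ∧ τ = σ ++ [i] ∧ T τ = true := by
  unfold ch
  simp only [List.mem_flatMap, List.mem_map, List.mem_range]
  constructor
  · rintro ⟨a, ⟨i, hi, rfl⟩, h⟩
    split_ifs at h with hT
    · rw [List.mem_singleton] at h
      subst h
      exact ⟨i, hi, rfl, hT⟩
    · simp at h
  · rintro ⟨i, hi, rfl, hT⟩
    exact ⟨_, ⟨i, hi, rfl⟩, by simp [hT]⟩

theorem desc_zero (A : List (List ℕ)) : desc T g A 0 = A := rfl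

theorem desc_succ (A : List (List ℕ)) (k : ℕ) :
    desc T g A (k + 1) = (desc T g A k).flatMap (ch T g) := rfl

theorem desc_add (A : List (List ℕ)) (j k : ℕ) :
    desc T g A (j + k) = desc T g (desc T g A j) k := by
  induction k with
  | zero => rfl
  | succ k ih => rw [← Nat.add_assoc, desc_succ, ih, desc_succ]

theorem lv_add (j k : ℕ) : lv T g (j + k) = desc T g (lv T g j) k := desc_add T g _ j k

theorem flatMap_prefix {A B : List (List ℕ)} (h : A <+: B) (f : List ℕ → List (List ℕ)) :
    A.flatMap f <+: B.flatMap f := by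
  obtain ⟨C, rfl⟩ := h
  rw [List.flatMap_append]
  exact List.prefix_append _ _

theorem desc_prefix {A B : List (List ℕ)} (h : A <+: B) (k : ℕ) :
    desc T g A k <+: desc T g B k := by
  induction k with
  | zero => exact h
  | succ k ih =>
    rw [desc_succ, desc_succ]
    exact flatMap_prefix ih _

theorem bas_prefix (n : ℕ) : bas T g n <+: lv T g n.unpair.1 := List.take_prefix _ _

theorem D_prefix (n t : ℕ) (ht : n.unpair.1 ≤ t) : D T g n t <+: lv T g t := by
  have h := desc_prefix T g (bas_prefix T g n) (t - n.unpair.1)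
  rw [← lv_add, Nat.add_sub_cancel' ht] at h
  exact h

theorem D_succ (n t : ℕ) (ht : n.unpair.1 ≤ t) :
    D T g n (t + 1) = (D T g n t).flatMap (ch T g) := by
  unfold D
  rw [Nat.sub_add_comm ht, desc_succ]

theorem E_succ (n s : ℕ) (hs : n.unpair.1 ≤ s) : E T g n (s + 1) = E T g n s + (D T g n s).length := by
  unfold E D
  rw [Nat.sub_add_comm hs, List.range_succ, List.map_append, List.sum_append]
  simp

theorem E_of_le (n s : ℕ) (hs : s ≤ n.unpair.1) : E T g n s = 0 := by
  unfold E
  rw [Nat.sub_eq_zero_of_le hs]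
  rfl

theorem Er_succ (s : ℕ) : Er T g (s + 1) = Er T g s + (lv T g s).length := by
  unfold Er
  rw [List.range_succ, List.map_append, List.sum_append]
  simp

theorem E_le_Er (n s : ℕ) : E T g n s ≤ Er T g s := by
  induction s with
  | zero => rw [E_of_le T g n 0 (Nat.zero_le _)]; exact Nat.zero_le _
  | succ s ih =>
    rcases Nat.lt_or_ge s n.unpair.1 with h | h
    · rw [E_of_le T g n (s + 1) h]; exact Nat.zero_le _
    · rw [E_succ T g n s h, Er_succ]
      exact Nat.add_le_add ih (D_prefix T g n s h).length_le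

theorem Er_mono {s s' : ℕ} (h : s ≤ s') : Er T g s ≤ Er T g s' := by
  induction s', h using Nat.le_induction with
  | base => exact le_rfl
  | succ s' _ ih => rw [Er_succ]; omega

/-- the root cut `(0, 1)` -/
def rt : ℕ := Nat.pair 0 1

/-- the empty cut `(0, 0)` -/
def ut : ℕ := Nat.pair 0 0

theorem E_rt (s : ℕ) : E T g rt s = Er T g s := by
  unfold E Er rt bas
  simp only [Nat.unpair_pair, Nat.sub_zero]
  rfl

theorem desc_nil (k : ℕ) : desc T g [] k = [] := by
  induction k with
  | zero => rfl
  | succ k ih => rw [desc_succ, ih]; rfl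

theorem E_of_bas_nil (n s : ℕ) (h : bas T g n = []) : E T g n s = 0 := by
  unfold E
  rw [h]
  simp [desc_nil]

theorem E_ut (s : ℕ) : E T g ut s = 0 := by
  apply E_of_bas_nil
  unfold bas ut
  simp

/-- comparison of counts persists -/
theorem c_step (n m t : ℕ) (hn : n.unpair.1 ≤ t) (hm : m.unpair.1 ≤ t)
    (h : (D T g n t).length ≤ (D T g m t).length) :
    (D T g n (t + 1)).length ≤ (D T g m (t + 1)).length := by
  have h1 := List.prefix_of_prefix_length_le (D_prefix T g n t hn) (D_prefix T g m t hm) h
  rw [D_succ T g n t hn, D_succ T g m t hm]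
  exact (flatMap_prefix h1 _).length_le

theorem c_mono (n m t s : ℕ) (hn : n.unpair.1 ≤ t) (hm : m.unpair.1 ≤ t) (hts : t ≤ s)
    (h : (D T g n t).length ≤ (D T g m t).length) :
    (D T g n s).length ≤ (D T g m s).length := by
  induction s, hts using Nat.le_induction with
  | base => exact h
  | succ s hs ih => exact c_step T g n m s (hn.trans hs) (hm.trans hs) ih

theorem const_of_eq (n m t : ℕ) (hn : n.unpair.1 ≤ t) (hm : m.unpair.1 ≤ t)
    (h : (D T g n t).length = (D T g m t).length) (s : ℕ) (hs : t ≤ s) :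
    E T g n s + E T g m t = E T g m s + E T g n t := by
  induction s, hs using Nat.le_induction with
  | base => omega
  | succ s hs ih =>
    rw [E_succ T g n s (hn.trans hs), E_succ T g m s (hm.trans hs)]
    have h1 := c_mono T g n m t s hn hm hs h.le
    have h2 := c_mono T g m n t s hm hn hs h.ge
    omega

/-- growth of the difference while the counts are different -/
theorem grow (n m t0 s : ℕ) (hn : n.unpair.1 ≤ t0) (hm : m.unpair.1 ≤ t0) (hts : t0 ≤ s)
    (h : ∀ t, t0 ≤ t → t < s → (D T g m t).length < (D T g n t).length) :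
    E T g m s + E T g n t0 + (s - t0) ≤ E T g n s + E T g m t0 := by
  induction s, hts using Nat.le_induction with
  | base => omega
  | succ s hs ih =>
    rw [E_succ T g n s (hn.trans hs), E_succ T g m s (hm.trans hs)]
    have h1 := h s hs (Nat.lt_succ_self s)
    have h2 := ih (fun t ht hts => h t ht (by omega))
    omega

theorem gap_persists (n m s0 L : ℕ) (hn : n.unpair.1 ≤ s0) (hm : m.unpair.1 ≤ s0)
    (h : (D T g m s0).length ≤ (D T g n s0).length) (hL : E T g m s0 + L ≤ E T g n s0)
    (s : ℕ) (hs : s0 ≤ s) : E T g m s + L ≤ E T g n s := by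
  induction s, hs using Nat.le_induction with
  | base => exact hL
  | succ s hs ih =>
    rw [E_succ T g n s (hn.trans hs), E_succ T g m s (hm.trans hs)]
    have h1 := c_mono T g m n s0 s hm hn hs h
    omega

theorem res_of_large (n m t0 s0 L : ℕ) (hn : n.unpair.1 ≤ t0) (hm : m.unpair.1 ≤ t0)
    (hs0 : t0 + Er T g t0 + L ≤ s0) : Res (E T g) n m s0 L := by
  have hts : t0 ≤ s0 := by omega
  have hEn := E_le_Er T g n t0
  have hEm := E_le_Er T g m t0
  rcases lt_trichotomy (D T g n s0).length (D T g m s0).length with h | h | h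
  · right; right
    have hlt : ∀ t, t0 ≤ t → t < s0 → (D T g n t).length < (D T g m t).length := by
      intro t ht hts'
      by_contra hcon
      push Not at hcon
      have := c_mono T g m n t s0 (hm.trans ht) (hn.trans ht) hts'.le hcon
      omega
    have h1 := grow T g m n t0 s0 hm hn hts hlt
    exact gap_persists T g m n s0 L (hm.trans hts) (hn.trans hts) h.le (by omega)
  · left
    exact const_of_eq T g n m s0 (hn.trans hts) (hm.trans hts) h
  · right; left
    have hlt : ∀ t, t0 ≤ t → t < s0 → (D T g m t).length < (D T g n t).length := by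
      intro t ht hts'
      by_contra hcon
      push Not at hcon
      have := c_mono T g n m t s0 (hn.trans ht) (hm.trans ht) hts'.le hcon
      omega
    have h1 := grow T g n m t0 s0 hn hm hts hlt
    exact gap_persists T g n m s0 L (hn.trans hts) (hm.trans hts) h.le (by omega)

/-- `n` dominates `m` -/
def Dom (n m : ℕ) : Prop := ∀ K, ∃ s1, ∀ s, s1 ≤ s → E T g m s + K ≤ E T g n s

theorem tri (n m : ℕ) :
    (∃ a b s1, ∀ s, s1 ≤ s → E T g n s + a = E T g m s + b) ∨ Dom T g n m ∨ Dom T g m n := by
  set t0 := max n.unpair.1 m.unpair.1 with ht0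
  have hn : n.unpair.1 ≤ t0 := le_max_left _ _
  have hm : m.unpair.1 ≤ t0 := le_max_right _ _
  by_cases h : ∃ s0, t0 ≤ s0 ∧ (D T g n s0).length = (D T g m s0).length
  · left
    obtain ⟨s0, hs0, heq⟩ := h
    exact ⟨_, _, s0, const_of_eq T g n m s0 (hn.trans hs0) (hm.trans hs0) heq⟩
  · push Not at h
    right
    rcases lt_or_gt_of_ne (h t0 le_rfl) with hlt | hgt
    · right
      have hall : ∀ t, t0 ≤ t → (D T g n t).length < (D T g m t).length := by
        intro t ht
        exact lt_of_le_of_ne (c_mono T g n m t0 t hn hm ht hlt.le) (h t ht)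
      intro K
      refine ⟨t0 + K + E T g n t0, fun s hs => ?_⟩
      have := grow T g m n t0 s hm hn (by omega) (fun t ht _ => hall t ht)
      omega
    · left
      have hall : ∀ t, t0 ≤ t → (D T g m t).length < (D T g n t).length := by
        intro t ht
        exact lt_of_le_of_ne (c_mono T g m n t0 t hm hn ht hgt.le) (h t ht).symm
      intro K
      refine ⟨t0 + K + E T g m t0, fun s hs => ?_⟩
      have := grow T g n m t0 s hn hm (by omega) (fun t ht _ => hall t ht)
      omega

/-! ### Paths -/

/-- initial segment -/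
def seg (f : ℕ → ℕ) (n : ℕ) : List ℕ := (List.range n).map f

theorem seg_length (f : ℕ → ℕ) (n : ℕ) : (seg f n).length = n := by simp [seg]

theorem seg_succ (f : ℕ → ℕ) (n : ℕ) : seg f (n + 1) = seg f n ++ [f n] := by
  simp [seg, List.range_succ]

theorem seg_take (f : ℕ → ℕ) (n l : ℕ) (h : l ≤ n) : (seg f n).take l = seg f l := by
  unfold seg
  rw [← List.map_take, List.take_range, min_eq_left h]

end

/-- The hypotheses on the tree. -/
structure TreeHyp (T : List ℕ → Bool) (g : List ℕ → ℕ) : Prop where
  root : T [] = true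
  closed : ∀ σ τ : List ℕ, σ <+: τ → T τ = true → T σ = true
  bdd : ∀ (σ : List ℕ) (i : ℕ), T (σ ++ [i]) = true → i < g σ

section

variable {T : List ℕ → Bool} {g : List ℕ → ℕ} (hT : TreeHyp T g)

/-- The set of paths. -/
def Paths (T : List ℕ → Bool) : Set (ℕ → ℕ) := {f | ∀ n, T ((List.range n).map f) = true}

include hT in
theorem mem_desc (l : ℕ) (A : List (List ℕ)) (hA : ∀ σ ∈ A, T σ = true ∧ σ.length = l) (k : ℕ)
    (τ : List ℕ) : τ ∈ desc T g A k ↔ (T τ = true ∧ τ.length = l + k ∧ τ.take l ∈ A) := by
  induction k generalizing τ with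
  | zero =>
    rw [desc_zero]
    constructor
    · intro h
      obtain ⟨h1, h2⟩ := hA τ h
      refine ⟨h1, h2, ?_⟩
      rw [List.take_of_length_le h2.le]
      exact h
    · rintro ⟨_, h2, h3⟩
      rwa [List.take_of_length_le (by omega)] at h3
  | succ k ih =>
    rw [desc_succ, List.mem_flatMap]
    constructor
    · rintro ⟨σ, hσ, hτ⟩
      rw [ih] at hσ
      rw [mem_ch] at hτ
      obtain ⟨i, _, rfl, hTτ⟩ := hτ
      refine ⟨hTτ, by simp [hσ.2.1]; omega, ?_⟩
      rw [List.take_append_of_le_length (by omega)]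
      exact hσ.2.2
    · rintro ⟨h1, h2, h3⟩
      have hne : τ ≠ [] := by
        intro h0
        rw [h0] at h2
        simp at h2
      obtain ⟨σ, i, rfl⟩ : ∃ σ i, τ = σ ++ [i] :=
        ⟨τ.dropLast, τ.getLast hne, (List.dropLast_append_getLast hne).symm⟩
      have hlen : σ.length = l + k := by
        simp at h2
        omega
      refine ⟨σ, ?_, ?_⟩
      · rw [ih]
        refine ⟨hT.closed _ _ (List.prefix_append _ _) h1, hlen, ?_⟩
        rwa [List.take_append_of_le_length (by omega)] at h3
      · rw [mem_ch]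
        exact ⟨i, hT.bdd _ _ h1, rfl, h1⟩

include hT in
theorem mem_lv (l : ℕ) (τ : List ℕ) : τ ∈ lv T g l ↔ (T τ = true ∧ τ.length = l) := by
  unfold lv
  rw [mem_desc hT 0 [[]] (by
    intro σ hσ
    rw [List.mem_singleton] at hσ
    subst hσ
    exact ⟨hT.root, rfl⟩)]
  simp

theorem nodup_ch (σ : List ℕ) : (ch T g σ).Nodup := by
  unfold ch
  have h1 : ((List.range (g σ)).map (fun i => σ ++ [i])).Nodup := by
    apply List.Nodup.map _ List.nodup_range
    intro a b h
    simpa using h
  have h2 : ((List.range (g σ)).map (fun i => σ ++ [i])).flatMap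
      (fun τ => if T τ = true then [τ] else []) =
      ((List.range (g σ)).map (fun i => σ ++ [i])).filter (fun τ => T τ) := by
    generalize (List.range (g σ)).map (fun i => σ ++ [i]) = M
    induction M with
    | nil => rfl
    | cons a M ih =>
      rw [List.flatMap_cons, ih, List.filter_cons]
      split_ifs <;> simp
  rw [h2]
  exact h1.filter _

theorem nodup_desc (A : List (List ℕ)) (hA : A.Nodup) (k : ℕ) : (desc T g A k).Nodup := by
  induction k with
  | zero => exact hA
  | succ k ih =>
    rw [desc_succ, List.nodup_flatMap]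
    refine ⟨fun σ _ => nodup_ch σ, ih.imp ?_⟩
    intro σ σ' hne τ h1 h2
    rw [mem_ch] at h1 h2
    obtain ⟨i, _, rfl, _⟩ := h1
    obtain ⟨j, _, h, _⟩ := h2
    exact hne (List.append_inj_left' h rfl)

theorem nodup_lv (l : ℕ) : (lv T g l).Nodup := nodup_desc _ (by simp) l

include hT in
theorem bas_spec (n : ℕ) : ∀ σ ∈ bas T g n, T σ = true ∧ σ.length = n.unpair.1 := by
  intro σ hσ
  rw [← mem_lv hT]
  exact (bas_prefix T g n).subset hσ

/-- the cut associated with a path -/
def cutOf (T : List ℕ → Bool) (g : List ℕ → ℕ) (f : ℕ → ℕ) : Set ℕ :=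
  {n | seg f n.unpair.1 ∈ bas T g n}

include hT in
theorem seg_mem_D (f : ℕ → ℕ) (hf : f ∈ Paths T) (n t : ℕ) (ht : n.unpair.1 ≤ t) :
    seg f t ∈ D T g n t ↔ n ∈ cutOf T g f := by
  unfold D
  rw [mem_desc hT _ _ (bas_spec hT n), seg_length, Nat.add_sub_cancel' ht, seg_take f t _ ht]
  constructor
  · rintro ⟨_, _, h⟩
    exact h
  · intro h
    exact ⟨hf t, rfl, h⟩

/-- A set of indices is a cut. -/
structure IsCut (T : List ℕ → Bool) (g : List ℕ → ℕ) (S : Set ℕ) : Prop where
  rt_mem : rt ∈ S
  ut_not_mem : ut ∉ S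
  dom : ∀ n ∈ S, ∀ m, m ∉ S → Dom T g n m

include hT in
theorem isCut_cutOf (f : ℕ → ℕ) (hf : f ∈ Paths T) : IsCut T g (cutOf T g f) where
  rt_mem := by
    change seg f (Nat.unpair rt).1 ∈ bas T g rt
    unfold bas rt
    simp only [Nat.unpair_pair]
    simp [seg, lv, desc]
  ut_not_mem := by
    change ¬ (seg f (Nat.unpair ut).1 ∈ bas T g ut)
    unfold bas ut
    simp
  dom := by
    intro n hn m hm
    set t0 := max n.unpair.1 m.unpair.1 with ht0
    have hn0 : n.unpair.1 ≤ t0 := le_max_left _ _
    have hm0 : m.unpair.1 ≤ t0 := le_max_right _ _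
    have hlt : ∀ t, t0 ≤ t → (D T g m t).length < (D T g n t).length := by
      intro t ht
      by_contra hcon
      push Not at hcon
      have h1 := List.prefix_of_prefix_length_le (D_prefix T g n t (hn0.trans ht))
        (D_prefix T g m t (hm0.trans ht)) hcon
      have h2 := (seg_mem_D hT f hf n t (hn0.trans ht)).2 hn
      exact hm ((seg_mem_D hT f hf m t (hm0.trans ht)).1 (h1.subset h2))
    intro K
    refine ⟨t0 + K + E T g m t0, fun s hs => ?_⟩
    have := grow T g n m t0 s hn0 hm0 (by omega) (fun t ht _ => hlt t ht)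
    omega

/-- transfer of membership in a cut -/
theorem IsCut.transfer {S : Set ℕ} (hS : IsCut T g S) {n m : ℕ} (hn : n ∈ S)
    (h : ∃ a s1, ∀ s, s1 ≤ s → E T g n s ≤ E T g m s + a) : m ∈ S := by
  by_contra hm
  obtain ⟨a, s1, h1⟩ := h
  obtain ⟨s2, h2⟩ := hS.dom n hn m hm (a + 1)
  have h3 := h1 (max s1 s2) (le_max_left _ _)
  have h4 := h2 (max s1 s2) (le_max_right _ _)
  omega

theorem bas_pair (l i : ℕ) : bas T g (Nat.pair l i) = (lv T g l).take i := by
  unfold bas
  rw [Nat.unpair_pair]

theorem IsCut.zero_not_mem {S : Set ℕ} (hS : IsCut T g S) (l : ℕ) : Nat.pair l 0 ∉ S := by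
  intro h
  apply hS.ut_not_mem
  apply hS.transfer h
  refine ⟨0, 0, fun s _ => ?_⟩
  rw [E_of_bas_nil T g (Nat.pair l 0) s (by rw [bas_pair]; rfl)]
  exact Nat.zero_le _

theorem IsCut.top_mem {S : Set ℕ} (hS : IsCut T g S) (l : ℕ) :
    Nat.pair l (lv T g l).length ∈ S := by
  apply hS.transfer hS.rt_mem
  refine ⟨Er T g l, l, fun s hs => ?_⟩
  rw [E_rt]
  induction s, hs using Nat.le_induction with
  | base => omega
  | succ s hs ih =>
    rw [Er_succ, E_succ T g _ s (by rw [Nat.unpair_pair]; exact hs)]
    have h1 : D T g (Nat.pair l (lv T g l).length) s = lv T g s := by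
      unfold D
      rw [bas_pair, List.take_length, Nat.unpair_pair, ← lv_add, Nat.add_sub_cancel' hs]
    rw [h1]
    omega

theorem IsCut.mono {S : Set ℕ} (hS : IsCut T g S) {l i j : ℕ} (hij : i ≤ j)
    (h : Nat.pair l i ∈ S) : Nat.pair l j ∈ S := by
  apply hS.transfer h
  refine ⟨0, 0, fun s _ => ?_⟩
  unfold E
  rw [bas_pair, bas_pair, Nat.unpair_pair, Nat.unpair_pair, Nat.add_zero]
  apply List.sum_le_sum
  intro k _
  exact (desc_prefix T g (List.take_prefix_take_left (l := lv T g l) hij) k).length_le

/-- moving a cut to the next level -/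
theorem E_next (l i : ℕ) (s : ℕ) (hs : l + 1 ≤ s) :
    E T g (Nat.pair l i) s = ((lv T g l).take i).length +
      E T g (Nat.pair (l + 1) (((lv T g l).take i).flatMap (ch T g)).length) s := by
  have hbas : bas T g (Nat.pair (l + 1) (((lv T g l).take i).flatMap (ch T g)).length) =
      ((lv T g l).take i).flatMap (ch T g) := by
    rw [bas_pair]
    have h1 : ((lv T g l).take i).flatMap (ch T g) <+: lv T g (l + 1) := by
      have : lv T g (l + 1) = (lv T g l).flatMap (ch T g) := rfl
      rw [this]
      exact flatMap_prefix (List.take_prefix _ _) _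
    exact (List.prefix_iff_eq_take.1 h1).symm
  unfold E
  rw [hbas, bas_pair]
  simp only [Nat.unpair_pair]
  obtain ⟨k, rfl⟩ : ∃ k, s = l + 1 + k := ⟨s - (l + 1), by omega⟩
  have e1 : l + 1 + k - l = k + 1 := by omega
  have e2 : l + 1 + k - (l + 1) = k := by omega
  rw [e1, e2, List.range_succ_eq_map, List.map_cons, List.sum_cons, desc_zero, List.map_map]
  congr 2
  apply List.map_congr_left
  intro j _
  simp only [Function.comp_apply, Nat.succ_eq_add_one]
  rw [Nat.add_comm j 1, desc_add]
  rfl

theorem IsCut.next_iff {S : Set ℕ} (hS : IsCut T g S) (l i : ℕ) :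
    Nat.pair (l + 1) (((lv T g l).take i).flatMap (ch T g)).length ∈ S ↔ Nat.pair l i ∈ S := by
  constructor
  · intro h
    apply hS.transfer h
    refine ⟨0, l + 1, fun s hs => ?_⟩
    rw [E_next l i s hs]
    omega
  · intro h
    apply hS.transfer h
    refine ⟨((lv T g l).take i).length, l + 1, fun s hs => ?_⟩
    rw [E_next l i s hs]
    omega

theorem exists_path_of_isCut (hT : TreeHyp T g) (S : Set ℕ) (hS : IsCut T g S) :
    ∃ f ∈ Paths T, S = cutOf T g f := by
  classical
  have hex : ∀ l, ∃ i, Nat.pair l i ∈ S := fun l => ⟨_, hS.top_mem l⟩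
  -- least index at level `l` in the cut
  set ix : ℕ → ℕ := fun l => Nat.find (hex l) with hix
  have hmem : ∀ l, Nat.pair l (ix l) ∈ S := fun l => Nat.find_spec (hex l)
  have hmin : ∀ l i, Nat.pair l i ∈ S → ix l ≤ i := fun l i h => Nat.find_min' (hex l) h
  have hiff : ∀ l i, Nat.pair l i ∈ S ↔ ix l ≤ i :=
    fun l i => ⟨hmin l i, fun h => hS.mono h (hmem l)⟩
  have hpos : ∀ l, 0 < ix l := by
    intro l
    rcases Nat.eq_zero_or_pos (ix l) with h | h
    · exact absurd (h ▸ hmem l) (hS.zero_not_mem l)
    · exact h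
  have hle : ∀ l, ix l ≤ (lv T g l).length := fun l => hmin l _ (hS.top_mem l)
  have hlt : ∀ l, ix l - 1 < (lv T g l).length := fun l => by
    have := hpos l; have := hle l; omega
  set σ : ℕ → List ℕ := fun l => (lv T g l)[ix l - 1]'(hlt l) with hσ
  have htake : ∀ l, (lv T g l).take (ix l) = (lv T g l).take (ix l - 1) ++ [σ l] := by
    intro l
    have h1 := List.take_succ_eq_append_getElem (hlt l)
    rw [Nat.sub_add_cancel (hpos l)] at h1
    exact h1
  have hcoh : ∀ l, σ (l + 1) ∈ ch T g (σ l) := by
    intro l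
    set X := ((lv T g l).take (ix l - 1)).flatMap (ch T g) with hX
    have h1 : ((lv T g l).take (ix l)).flatMap (ch T g) = X ++ ch T g (σ l) := by
      rw [htake l, List.flatMap_append, List.flatMap_singleton]
    have ha : X.length < ix (l + 1) := by
      by_contra hcon
      push Not at hcon
      have h2 := (hiff (l + 1) X.length).2 hcon
      rw [hX, hS.next_iff, hiff] at h2
      have := hpos l
      omega
    have hb : ix (l + 1) ≤ X.length + (ch T g (σ l)).length := by
      rw [← List.length_append, ← h1]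
      apply hmin
      rw [hS.next_iff]
      exact hmem l
    have hpre : X ++ ch T g (σ l) <+: lv T g (l + 1) := by
      rw [← h1]
      have : lv T g (l + 1) = (lv T g l).flatMap (ch T g) := rfl
      rw [this]
      exact flatMap_prefix (List.take_prefix _ _) _
    obtain ⟨Y, hY⟩ := hpre
    have hgen : ∀ (M : List (List ℕ)) (_ : M = lv T g (l + 1)) (hh : ix (l + 1) - 1 < M.length),
        σ (l + 1) = M[ix (l + 1) - 1] := by
      rintro _ rfl _
      rfl
    have h3 : σ (l + 1) = (X ++ ch T g (σ l) ++ Y)[ix (l + 1) - 1]'(by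
        rw [hY]; exact hlt (l + 1)) := hgen _ hY _
    rw [h3, List.getElem_append_left (by rw [List.length_append]; omega),
      List.getElem_append_right (by omega)]
    exact List.getElem_mem _
  have hσlv : ∀ l, σ l ∈ lv T g l := fun l => List.getElem_mem _
  set f : ℕ → ℕ := fun l => (σ (l + 1)).getD l 0 with hf
  have hseg : ∀ l, σ l = seg f l := by
    intro l
    induction l with
    | zero =>
      have := ((mem_lv hT 0 (σ 0)).1 (hσlv 0)).2
      rw [List.length_eq_zero_iff] at this
      rw [this]
      rfl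
    | succ l ih =>
      have h1 := hcoh l
      rw [mem_ch] at h1
      obtain ⟨i, _, h2, _⟩ := h1
      have hlen : (σ l).length = l := ((mem_lv hT l (σ l)).1 (hσlv l)).2
      have hfl : f l = i := by
        rw [hf]
        simp only [h2]
        rw [List.getD_eq_getElem?_getD, List.getElem?_append_right (by omega), hlen]
        simp
      rw [seg_succ, hfl, h2, ih]
  have hpath : f ∈ Paths T := by
    intro l
    have := ((mem_lv hT l (σ l)).1 (hσlv l)).1
    rw [hseg l] at this
    exact this
  refine ⟨f, hpath, ?_⟩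
  ext n
  change n ∈ S ↔ seg f n.unpair.1 ∈ bas T g n
  obtain ⟨l, i, rfl⟩ : ∃ l i, n = Nat.pair l i := ⟨_, _, (Nat.pair_unpair n).symm⟩
  rw [hiff, bas_pair, Nat.unpair_pair, ← hseg l]
  constructor
  · intro h
    have h1 : σ l ∈ (lv T g l).take (ix l) := by rw [htake l]; simp
    exact (List.take_prefix_take_left (l := lv T g l) h).subset h1
  · intro h
    by_contra hcon
    push Not at hcon
    have h1 : σ l ∈ (lv T g l).take (ix l - 1) :=
      (List.take_prefix_take_left (l := lv T g l) (by omega : i ≤ ix l - 1)).subset h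
    have h2 : ((lv T g l).take (ix l)).Nodup :=
      (nodup_lv (T := T) (g := g) l).sublist (List.take_sublist _ _)
    rw [htake l, List.nodup_append] at h2
    exact h2.2.2 _ h1 _ (by simp) rfl

include hT in
theorem cutOf_injOn (f f' : ℕ → ℕ) (hf : f ∈ Paths T) (hf' : f' ∈ Paths T)
    (h : cutOf T g f = cutOf T g f') : f = f' := by
  have key : ∀ l, seg f l = seg f' l := by
    intro l
    have hmem : ∀ f ∈ Paths T, seg f l ∈ lv T g l := by
      intro f hf
      rw [mem_lv hT]
      exact ⟨hf l, seg_length f l⟩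
    by_contra hne
    -- the first position of each
    obtain ⟨i, hi, hi2⟩ := List.getElem_of_mem (hmem f hf)
    obtain ⟨j, hj, hj2⟩ := List.getElem_of_mem (hmem f' hf')
    have hnd := nodup_lv (T := T) (g := g) l
    have hmemtake : ∀ (a : ℕ) (ha : a < (lv T g l).length) (b : ℕ),
        (lv T g l)[a] ∈ (lv T g l).take b → a < b := by
      intro a ha b h1
      obtain ⟨c, hc, hc2⟩ := List.getElem_of_mem h1
      rw [List.getElem_take] at hc2
      have := (hnd.getElem_inj_iff).1 hc2
      rw [List.length_take] at hc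
      omega
    have hin : ∀ (a : ℕ) (ha : a < (lv T g l).length) (b : ℕ), a < b →
        (lv T g l)[a] ∈ (lv T g l).take b := by
      intro a ha b hab
      rw [List.mem_take_iff_getElem]
      exact ⟨a, by omega, rfl⟩
    have hcut : ∀ b, seg f l ∈ (lv T g l).take b ↔ seg f' l ∈ (lv T g l).take b := by
      intro b
      have h1 := Set.ext_iff.1 h (Nat.pair l b)
      simp only [cutOf, Set.mem_ofPred_eq, bas_pair, Nat.unpair_pair] at h1
      exact h1
    have e1 : i < j + 1 := by
      apply hmemtake i hi
      rw [hi2, hcut, ← hj2]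
      exact hin j hj _ (Nat.lt_succ_self j)
    have e2 : j < i + 1 := by
      apply hmemtake j hj
      rw [hj2, ← hcut, ← hi2]
      exact hin i hi _ (Nat.lt_succ_self i)
    have e3 : i = j := by omega
    subst e3
    exact hne (hi2.symm.trans hj2)
  funext l
  have h1 := key (l + 1)
  rw [seg_succ, seg_succ, key l] at h1
  simpa using h1

end

end Pool.Agent.LibFed070
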